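import Pool.Agent.Work.MP_8f87b2_h2.KHp

/-!
# Inner words of the windows against the right K links of the plan

`TyA.inner_Kh`: windows with a bead, not one bead and one pair `(())`.
-/

set_option autoImplicit false

namespace Pool.OddHC

open BinaryTree Equiv

namespace H1

variable {k q : ℕ}

theorem two_le_count {H' : BinaryTree Unit} : 1 ≤ (cont (app H' two)).count 2 := by
  rw [cont_app, Multiset.count_add]
  have : (cont two).count 2 = 1 := by decide
  omega

/-- the end of the inner words of a window of height 4 without a part 2 -/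
theorem NodeG.end4b {B1 H s B : BinaryTree Unit} (h : NodeG k q B1 H s B) (h3 : OddHC.ht s ≤ 3)
    (h2 : (cont (gR B1 H s B)).count 2 = 0) (w0 : X k) {i : ℕ}
    (hi : i ∈ [0, 1, 3, 6, 8, 9]) : ∃ v, wd (TT (gX q B1 H s B w0 i)).1 = v ++ [false, true, false, false] := by
  have hH : (cont H).count 2 = 0 := by
    have e : cont (gR B1 H s B) = cont B1 + (raise (cont (app H s)) + cont B) := by
      unfold gR
      rw [cont_app, cont_node]
    rw [e, Multiset.count_add, Multiset.count_add] at h2
    have hs : 3 ≤ OddHC.ht s := h.hs3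
    have h4 : 3 ≤ (cont (app H s)).sup := by
      rw [← OddHC.ht_eq, OddHC.ht_app]
      exact le_trans hs (le_max_right _ _)
    have h5 : (raise (cont (app H s))).count 2 = (cont (app H s)).count 2 := count_raise 2 (by omega) (by omega)
    rw [h5, cont_app, Multiset.count_add] at h2
    omega
  obtain ⟨b, p, rfl, rfl, -⟩ := h.four h3
  rw [h.TW w0 hi]
  have key : ∃ v, El b H = v ++ [false, true, false, false] := by
    obtain ⟨H', rfl | rfl⟩ := bl_snoc h.light h.H0
    · exact ⟨co (wd (lv3' b .nil)) ++ false :: co (wd H'), by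
        unfold El; rw [wd_app, co_app]; simp [co, wd]⟩
    · have := two_le_count (H' := H')
      omega
  obtain ⟨v, hv⟩ := key
  obtain ⟨e0, e1, e3, e6, e8, e9⟩ := Yl_eq q b H
  have hY : ∃ v, Yl q b H i = v ++ [false, true, false, false] := by
    simp only [List.mem_cons, List.not_mem_nil, or_false] at hi
    rcases hi with rfl | rfl | rfl | rfl | rfl | rfl
    · rw [e0, hv]
      exact ⟨(false :: false :: (co (wd (ch (q + 1))) ++ [true, true, false])) ++ v, by simp⟩
    · rw [e1, hv]
      exact ⟨(false :: true :: (co (wd (ch (q + 1))) ++ [false, true, false])) ++ v, by simp⟩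
    · rw [e3, hv]
      exact ⟨(false :: true :: (co (wd (ch (q + 1))) ++ [true, false, false])) ++ v, by simp⟩
    · rw [e6, hv]
      exact ⟨(true :: false :: (co (wd (ch (q + 1))) ++ [true, false, false])) ++ v, by simp⟩
    · rw [e8, hv]
      exact ⟨(true :: false :: (co (wd (ch (q + 1))) ++ [false, true, false])) ++ v, by simp⟩
    · rw [e9, hv]
      exact ⟨(true :: true :: (co (wd (ch (q + 1))) ++ [false, false, false])) ++ v, by simp⟩
  obtain ⟨v', hv'⟩ := hY
  rw [hv']
  exact ⟨(true :: true :: true :: (co (wd (lv3' p .nil)) ++ true :: co (wd B))) ++ v', by simp⟩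

end H1

variable {k : ℕ} {S : BinaryTree Unit} {F F' : Set (Cyc k)} {g g' : DG k}

open H1

/-- **K (right)** against windows without a part 2 -/
theorem TyA.inner_K00 (h : TyA F g) (h' : TyK S F' g') (h0 : nd S) (h2 : ∀ c ∈ F, (contc c).count 2 = 0)
    {a : X k × X k} (ha : a ∈ g.arcs) : ∀ w ∈ innA a, w ∉ g'.B := by
  intro w hw hw'
  rcases IsTri.words h' w hw' with e | ⟨_, e | e⟩
  · refine h.inner_of ha ?_ hw
    right; right; left
    exact ⟨true :: (wd S ++ [false]), by
      rw [e]; change wd (S △ (.nil △ .nil)) = _; rw [wd_node]; simp [wd]⟩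
  · have e' : w.1 = app S (ch 2) := e
    have hn : nd w.1 := by
      rw [e']
      exact nd_app h0 (nd_ch 2)
    obtain ⟨q, B1, H, s, B, w0, hG, rfl, rfl⟩ := h
    obtain ⟨i, hi, ei⟩ := arcs_cases ha
    rw [ei] at hw
    have e1 : w = TT (gX q B1 H s B w0 i) := hw
    have hi10 : i < 10 := by
      simp only [List.mem_cons, List.not_mem_nil, or_false] at hi
      omega
    by_cases h4 : 4 ≤ OddHC.ht s
    · exact hG.inner_ne h4 w0 hi10 (hn St.e (by intro h2; cases h2)) e1.symm
    · have h3 : OddHC.ht s ≤ 3 := by omega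
      have hc := h2 _ rfl
      change (cont (gX q B1 H s B w0 0).1).count 2 = 0 at hc
      rw [hG.cnt0 w0 (by norm_num)] at hc
      obtain ⟨v, hv⟩ := hG.end4b h3 hc w0 hi
      rw [← e1, e', wd_app] at hv
      have h5 := congrArg List.reverse hv
      simp [ch, wd] at h5
  · refine h.inner_of ha (Or.inl ?_) hw
    exact ⟨true :: false :: wd S, by
      rw [e]; change wd (.nil △ (.nil △ S)) = _
      rw [wd_node, wd_node]; simp [wd]⟩

/-- **A, inner words - K** -/
theorem TyA.inner_Kh (h : TyA F g) (h' : TyKh F' g')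
    (hb : ∀ c ∈ F, 1 ≤ (contc c).count 1 ∧ ¬ ((contc c).count 1 = 1 ∧ (contc c).count 2 = 1))
    {a : X k × X k} (ha : a ∈ g.arcs) : ∀ w ∈ innA a, w ∉ g'.B := by
  obtain ⟨S, hS, h2⟩ := h'
  have h1 : ∀ c ∈ F, 1 ∈ contc c := fun c hc => Multiset.count_pos.1 (hb c hc).1
  have hpc : ∀ q, (cont (pc (q + 3))).count 2 = 0 ∧ (cont (pc (q + 3))).count 1 = 0 := by
    intro q
    rw [cont_pc, Multiset.count_singleton, Multiset.count_singleton, if_neg (by omega), if_neg (by omega)]
    exact ⟨rfl, rfl⟩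
  have hF : (∀ c ∈ F, (contc c).count 2 = 0) ∨ ∀ c ∈ F, 1 ≤ (contc c).count 2 := by
    obtain ⟨q, B1, H, s, B, w0, hG, rfl, rfl⟩ := h
    rcases Nat.eq_zero_or_pos ((contc (cyc (gX q B1 H s B w0 0))).count 2) with h0 | h0
    · left
      rintro c rfl
      exact h0
    · right
      rintro c rfl
      exact h0
  rcases hS with ⟨S1, q, rfl, h3, h4, h5⟩ | ⟨S1, q, rfl, h3, h4⟩ | ⟨S1, m, rfl, h3, h4⟩ | ⟨S1, q, rfl, h3, h4⟩ |
    ⟨S1, A, m, rfl, h3, h5⟩ | ⟨S1, a', rfl, h3, h4⟩
  · refine h.inner_K0 h2 h1 ?_ ha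
    intro h6
    have := h5 1 h6
    omega
  · rw [← H1.ch_eq] at h2
    rcases hF with hF | hF
    · exact h.inner_K00 h2 (nd_K1 _ h3) hF ha
    · refine h.inner_Kc h2 (nd_K1 _ h3) ?_ ?_ (fun c hc => ⟨(hb c hc).1, hF c hc, (hb c hc).2⟩) ha
      · rw [H1.ch_eq, cont_app, cont_node, cont_nil, raise_zero, Multiset.count_add, Multiset.count_add,
          count1_hv h3, (hpc q).2]
        decide
      · rw [H1.ch_eq, cont_app, cont_node, cont_nil, raise_zero, Multiset.count_add, Multiset.count_add,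
          count2_hv h3, (hpc q).1]
        decide
  · exact h.inner_Kb (m := m + 1) h2 (nd_hv h3) ha
  · rw [← H1.ch_eq] at h2
    exact h.inner_K2 (m := 0) h2 h3 ha
  · exact h.inner_K3 h2 h3 (hA_ch h5) ha
  · refine h.inner_K0 h2 h1 ?_ ha
    rw [cont_app, cont_lv2, cont_nil, add_zero, Multiset.mem_add, Multiset.mem_replicate]
    rintro (h6 | ⟨_, h6⟩)
    · have := hv_part h3 1 h6
      omega
    · omega

end Pool.OddHC
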