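import Pool.Agent.Work.MP_8f87b2_h2.KHw
import Pool.Agent.Work.MP_8f87b2_h21.JVns
import Pool.Agent.Work.MP_8f87b2_h49.JVw
import Pool.Agent.Work.MP_8f87b2_h58.InA0

/-!
# K links against the arc `((S))` of `JV`: `K4` takes a phase which is not sharp
-/

set_option autoImplicit false

namespace Pool.OddHC

open Finset BinaryTree Multiset Pool.OddHop

variable {i j j2 k : ℕ}

/-- insertion into a product is a product -/
theorem ins_app_ne (A B : BinaryTree Unit) (hA : A ≠ .nil) (hB : B ≠ .nil) (e : List ℕ)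
    (he : e.length = 2 * (app A B).numNodes + 1) :
    ∃ A' B', ins (app A B) e = app A' B' ∧ A' ≠ .nil ∧ B' ≠ .nil := by
  rw [num_app] at he
  have h := ins_app B (e.drop (2 * A.numNodes + 1)) A (e.take (2 * A.numNodes + 1))
    (by rw [List.length_take]; omega)
  rw [List.take_append_drop] at h
  refine ⟨_, _, h, ?_, ?_⟩
  · intro h0
    have h1 := (ins_num A (e.take (2 * A.numNodes + 1)) (by rw [List.length_take]; omega)).1
    rw [h0] at h1
    have h2 : A.numNodes ≠ 0 := fun h3 => hA (by cases A with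
      | nil => rfl
      | node _ _ _ => exact absurd h3 (by change _ + _ + 1 ≠ 0; omega))
    change 0 = _ at h1
    omega
  · intro h0
    have h1 := (ins_num B (0 :: e.drop (2 * A.numNodes + 1)) (by
      rw [List.length_cons, List.length_drop]; omega)).1
    rw [h0] at h1
    have h2 : B.numNodes ≠ 0 := fun h3 => hB (by cases B with
      | nil => rfl
      | node _ _ _ => exact absurd h3 (by change _ + _ + 1 ≠ 0; omega))
    change 0 = _ at h1
    omega

theorem app_ne_prime {A B Y : BinaryTree Unit} (hA : A ≠ .nil) (hB : B ≠ .nil) : app A B ≠ Y △ .nil := by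
  cases A with
  | nil => exact absurd rfl hA
  | node _ A1 A2 =>
    intro h
    have h1 : app A2 B = .nil := by
      have h2 : A1 △ app A2 B = Y △ .nil := h
      injection h2
    exact hB (H1.app_eq_nil.1 h1).2

theorem ns_ins (v1 : X j2) {A B : BinaryTree Unit} (h : v1.1 = app A B) (hA : A ≠ .nil) (hB : B ≠ .nil)
    (b : ZMod (2 * j2 + 1) → ℕ) : JV.NS (inf (ins (TT v1).1 (lf b))) := by
  intro j y Y hy e
  obtain ⟨J, hJ⟩ : ∃ J, j2 + pkn v1.1 + ∑ x, b x = J := ⟨_, rfl⟩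
  have hJ1 : j2 + pkn v1.1 + ∑ x, (fun x => b (x - Vo v1)) x = J := by
    rw [← hJ]
    congr 1
    exact Equiv.sum_comp (Equiv.subRight (Vo v1)) b
  obtain ⟨u1, hu1⟩ : ∃ u1 : X J, u1 = phi v1 (fun x => b (x - Vo v1)) hJ1 := ⟨_, rfl⟩
  have h1 : (TT u1).1 = ins (TT v1).1 (lf b) := by
    rw [hu1, TT_phi]
    change ins (TT v1).1 (lf fun x => b (x + Vo v1 - Vo v1)) = _
    congr 2
    funext x
    rw [add_sub_cancel_right]
  have hK : J + pkn u1.1 + ∑ x : ZMod (2 * J + 1), (fun _ => 0 : ZMod (2 * J + 1) → ℕ) x = J + pkn u1.1 := by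
    simp
  obtain ⟨x1, hx1⟩ : ∃ x1 : X (J + pkn u1.1), x1 = phi u1 (fun _ => 0) hK := ⟨_, rfl⟩
  have h2 : (TT x1).1 = inf (ins (TT v1).1 (lf b)) := by
    rw [hx1, TT_phi]
    change ins (TT u1).1 (lf fun _ => 0) = _
    rw [ins_zero_kh, h1]
  have hj : j = J + pkn u1.1 := by
    have := congrArg BinaryTree.numNodes (e.trans h2.symm)
    rw [X_num, X_num] at this
    exact this
  subst hj
  have h3 : TT y = TT x1 := Subtype.ext (e.trans h2.symm)
  have h4 : y = x1 := TT.injective h3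
  have h5 : x1.1 = ins (ins v1.1 (lf fun x => b (x - Vo v1))) (lf fun _ : ZMod (2 * J + 1) => 0) := by
    rw [hx1]
    change ins u1.1 _ = _
    rw [hu1]
    rfl
  obtain ⟨A1, B1, e1, hA1, hB1⟩ := ins_app_ne A B hA hB (lf fun x => b (x - Vo v1)) (by
    rw [lf_length, ← h, X_num])
  rw [h, e1] at h5
  have hn : (app A1 B1).numNodes = J := by
    have := X_num u1
    rw [hu1] at this
    change (ins v1.1 (lf fun x => b (x - Vo v1))).numNodes = J at this
    rw [h, e1] at this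
    exact this
  obtain ⟨A2, B2, e2, hA2, hB2⟩ := ins_app_ne A1 B1 hA1 hB1 (lf fun _ : ZMod (2 * J + 1) => 0) (by
    rw [lf_length, hn])
  rw [h4, h5, e2] at hy
  exact app_ne_prime hA2 hB2 hy

/-- **K4 with a phase which is not sharp** -/
theorem kh4_ns {V : Cyc j2} (h2 : 2 ≤ pkc V) (a : ℕ) (ha : 1 ≤ a) :
    KPh V (fun S => KHp S ∧ KH4 S ∧ JV.NS S) a 0 0 0 0 := by
  obtain ⟨v1, R, q, hv, hR, hR0, hmin⟩ := exists_endV h2
  have hv' : cyc (TT v1) = V := by rw [← hv]; exact cyc_TT v1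
  obtain ⟨v, hvv⟩ : ∃ v : X j2, v = TT v1 := ⟨_, rfl⟩
  have hp := pkc_of (hvv ▸ hv')
  refine ⟨v, hvv ▸ hv', ?_⟩
  have hns := ns_ins v1 hR hR0 (by
    intro h
    have h9 := congrArg BinaryTree.numNodes h
    rw [pc_num] at h9
    change q + 1 = 0 at h9
    omega) (fun z : ZMod (2 * j2 + 1) => if z = -1 then a else 0)
  rw [← hvv] at hns
  obtain ⟨a, rfl⟩ : ∃ a', a = a' + 1 := ⟨a - 1, by omega⟩
  have e0 : (fun z : ZMod (2 * j2 + 1) => if z = -1 then a + 1 else 0) =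
      fun z => (fun _ => 0) z + if z = -1 then a + 1 else 0 := by
    funext z
    simp
  have e1 : ins v.1 (lf fun z : ZMod (2 * j2 + 1) => if z = -1 then a + 1 else 0) = app (inf v.1) (lp (a + 1)) := by
    rw [e0, ins_backs, ins_zero_kh]
  have e : (ev 0 0 0 0 : ZMod (2 * (j2 + pkc V + (a + 1)) + 1) → ℕ) = fun _ => 0 := by
    funext z
    unfold ev
    simp
  have hn : (app (inf v.1) (lp (a + 1))).numNodes = j2 + pkc V + (a + 1) := by
    rw [num_app, inf_num_kh, hp, lp_num]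
  have e2 : ins (app (inf v.1) (lp (a + 1))) (List.replicate (2 * (j2 + pkc V + (a + 1)) + 1) 0) =
      inf (app (inf v.1) (lp (a + 1))) := by
    change _ = ins _ (List.replicate (2 * (app (inf v.1) (lp (a + 1))).numNodes + 1) 0)
    rw [hn]
  rw [e1] at hns
  rw [e1, e, lf_zero, e2]
  have hv0 : v.1 ≠ .nil := by
    intro h
    rw [h] at hp
    have : pkn (.nil : BinaryTree Unit) = 0 := rfl
    omega
  have h4 : KH4 (inf (app (inf v.1) (lp (a + 1)))) := by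
    refine ⟨inf (inf v.1), a, ?_, hv_inf2' v.1, inf_ne_nil (inf_ne_nil hv0)⟩
    rw [inf_app]
    unfold lp
    rw [inf_lv, inf_nil]
  exact ⟨Or.inr (Or.inr (Or.inr (Or.inr (Or.inr h4)))), h4, hns⟩

/-- shapes of the K links with `K4` not sharp -/
def KHq (S : BinaryTree Unit) : Prop := KH0 S ∨ KH1 S ∨ KH2 S ∨ KH2' S ∨ KH3 S ∨ (KH4 S ∧ JV.NS S)

theorem KHq.kp {S : BinaryTree Unit} (h : KHq S) : KHp S := by
  rcases h with h | h | h | h | h | h
  · exact Or.inl h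
  · exact Or.inr (Or.inl h)
  · exact Or.inr (Or.inr (Or.inl h))
  · exact Or.inr (Or.inr (Or.inr (Or.inl h)))
  · exact Or.inr (Or.inr (Or.inr (Or.inr (Or.inl h))))
  · exact Or.inr (Or.inr (Or.inr (Or.inr (Or.inr h.1))))

/-- K links in use -/
def TyKq (F : Set (Cyc k)) (g : DG k) : Prop := ∃ S : BinaryTree Unit, KHq S ∧ TyK S F g

theorem TyKq.toKh {F : Set (Cyc k)} {g : DG k} (h : TyKq F g) : TyKh F g := by
  obtain ⟨S, h1, h2⟩ := h
  exact ⟨S, h1.kp, h2⟩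

/-- `T(((S)))` is not `S1 [c] (())`, `c` the smallest part: no K0 is hit -/
def JK0 (k : ℕ) (S : BinaryTree Unit) : Prop := ∀ X, KH0 X → JVI.N3 k S (app X ((.nil △ .nil) △ .nil))

theorem Is9.count1_inn {S : BinaryTree Unit} {F : Set (Cyc k)} {g : DG k} (h : Is9 .nil .nil S F g)
    (h1 : ∀ x ∈ cont S, 2 ≤ x) (h3 : 3 ≤ ht S) {p : X k × X k} (hp : p ∈ g.arcs) {x : X k} (hx : x ∈ innA p) :
    (cont x.1).count 1 ≤ 1 := by
  obtain ⟨w, hD, rfl, rfl⟩ := h
  have hc0 : (cont S).count 1 = 0 := Multiset.count_eq_zero.2 fun h => absurd (h1 1 h) (by omega)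
  have key : ∀ i, i < 9 → p.1 = w i → (cont x.1).count 1 ≤ 1 := by
    intro i hi e
    have hx' : x = TT p.1 := hx
    have h5 : cont x.1 = cont (w i).1 := by rw [hx', e, TT_apply]; exact cont_TF _
    have h6 := (w9_cont hc0 (by omega) hi (hD.word i hi)).2
    rw [h5, h6]
    split_ifs <;> omega
  rcases hp with e | e | e
  · exact key 3 (by omega) (by rw [e])
  · exact key 4 (by omega) (by rw [e])
  · exact key 5 (by omega) (by rw [e])

theorem count1_K3 {A : BinaryTree Unit} (h : ∃ x ∈ cont A, 2 ≤ x) (m : ℕ) :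
    2 ≤ (cont (app A (lp 1) △ lp (m + 1))).count 1 := by
  obtain ⟨x, hx, h2⟩ := h
  rw [cont_node, Multiset.count_add, cont_lp_kh, Multiset.count_replicate_self]
  have h3 : 2 ≤ (cont (app A (lp 1))).sup := by
    rw [cont_app]
    exact le_trans h2 (Multiset.le_sup (Multiset.mem_add.2 (Or.inl hx)))
  rw [count_raise 1 (by omega) (by omega), cont_app, Multiset.count_add, cont_lp_kh,
    Multiset.count_replicate_self]
  omega

/-- **row I-JV-K** -/
theorem Is9.inner_Kq {S : BinaryTree Unit} {F F' : Set (Cyc k)} {g g' : DG k} (h : Is9 .nil .nil S F g)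
    (h1 : ∀ x ∈ cont S, 2 ≤ x) (h3 : 3 ≤ ht S) (hJ : JK0 k S) (h' : TyKq F' g') :
    ∀ p ∈ g.arcs, ∀ w ∈ innA p, w ∉ g'.B := by
  obtain ⟨U, hU, hK⟩ := h'
  have hg2 : ∀ {t : BinaryTree Unit}, H1.hv t → H1.hg 2 t := fun ht =>
    H1.hg_of_cont (by omega) fun x hx => le_trans (by omega) (hv_part ht x hx)
  have hc0 : (cont S).count 1 = 0 := Multiset.count_eq_zero.2 fun h => absurd (h1 1 h) (by omega)
  rcases hU with h0 | h0 | h0 | h0 | h0 | h0
  · obtain ⟨S1, q, rfl, hS1, hne, hmin⟩ := id h0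
    exact h.inner_K2 h1 h3 (H1.hg_of_cont (by omega) fun x hx => le_trans (by omega) (hmin x hx)) hK (hJ _ h0)
  · obtain ⟨S1, q, rfl, hS1, hne⟩ := h0
    exact h.inner_K1 h1 h3 (hg2 hS1) hK
  · obtain ⟨S0, m, rfl, hS0, hne⟩ := h0
    exact h.inner_K1 (Z := lp (m + 1)) h1 h3 (hg2 hS0) hK
  · obtain ⟨S1, q, rfl, hS1, hne⟩ := h0
    exact h.inner_K1 h1 h3 (hg2 hS1) hK
  · obtain ⟨S1, A, m, rfl, hS1, hA⟩ := h0
    intro p hp x hx hw
    have hs := h.sh h1 h3 hp hx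
    have hc := h.count1_inn h1 h3 hp hx
    rcases IsTri.words hK _ hw with e | ⟨_, e | e⟩
    · exact hs.not_last (Y := _ △ .nil) e
    · have e2 : cont x.1 = cont (app (app S1 (app A (lp 1) △ lp (m + 1))) ((.nil △ .nil) △ .nil)) := by
        rw [e]; rfl
      rw [cont_app, cont_app] at e2
      have e3 : 2 ≤ (cont x.1).count 1 := by
        rw [e2, Multiset.count_add, Multiset.count_add]
        have e5 : ∃ x ∈ cont A, 2 ≤ x := by
          rcases hA with ⟨_, rfl⟩ | ⟨hA, hA0⟩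
          · exact ⟨2, by rw [cont_pc]; exact Multiset.mem_singleton_self 2, le_refl 2⟩
          · obtain ⟨y, hy⟩ := Multiset.exists_mem_of_ne_zero (s := cont A) (fun h9 => hA0 (cont_eq_zero.1 h9))
            exact ⟨y, hy, le_trans (by omega) (hv_part hA y hy)⟩
        have e4 := count1_K3 e5 m
        omega
      omega
    · exact hs.not_first (Y := .nil △ _) e
  · obtain ⟨⟨S0, a, rfl, hS0, hne⟩, hns⟩ := h0
    refine h.inner_K2 h1 h3 ?_ hK ?_
    · refine H1.hg_of_cont (by omega) fun x hx => ?_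
      rw [cont_app, Multiset.mem_add] at hx
      rcases hx with hx | hx
      · exact le_trans (by omega) (hv_part hS0 x hx)
      · rw [cont_lv2, cont_nil, add_zero, Multiset.mem_replicate] at hx
        omega
    · intro y hy e
      exact JV.sharp0 hc0 h3 hy e hns

section
variable {V : Cyc j2}

/-- **K0** -/
theorem kq0 (h2 : 2 ≤ pkc V) : KPh V KHq 0 0 0 0 0 := by
  obtain ⟨v, R, q, hv, hR, hR0, hmin⟩ := exists_endV h2
  refine ⟨v, hv, ?_⟩
  have hp := pkc_of hv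
  have e : (ev 0 0 0 0 : ZMod (2 * (j2 + pkc V + 0) + 1) → ℕ) = fun _ => 0 := by
    funext z
    unfold ev
    simp
  rw [ins_zero_m, e, lf_zero]
  have e2 : ins (inf v.1) (List.replicate (2 * (j2 + pkc V + 0) + 1) 0) = inf (inf v.1) := by
    change _ = ins (inf v.1) (List.replicate (2 * (inf v.1).numNodes + 1) 0)
    rw [inf_num_kh, hp]
    rfl
  rw [e2]
  left
  refine ⟨inf (inf R), q, ?_, hv_inf2' R, inf_ne_nil (inf_ne_nil hR0), ?_⟩
  · rw [hR, inf_app, inf_app, inf_pc (by omega), inf_pc (by omega)]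
  · intro x hx
    rw [cont_inf, cont_inf, Multiset.map_map, Multiset.mem_map] at hx
    obtain ⟨y, hy, rfl⟩ := hx
    have := hmin y hy
    change q + 3 ≤ y + 1 + 1
    omega

/-- **K1** -/
theorem kq1 (h2 : 2 ≤ pkc V) : ∃ x, x < 2 * (j2 + pkc V) + 1 ∧ KPh V KHq 0 x 1 0 0 := by
  obtain ⟨v, R, q, hv, hR, hR0, hmin⟩ := exists_endV h2
  have hp := pkc_of hv
  obtain ⟨h3, h4⟩ := end_size hR hmin (by rw [hp]; exact h2)
  refine ⟨2 * (inf R).numNodes, by omega, v, hv, ?_⟩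
  rw [ins_zero_m, k1_word hR (by omega)]
  right; left
  exact ⟨inf (inf R), q, rfl, hv_inf2' R, inf_ne_nil (inf_ne_nil hR0)⟩

/-- **K2'** -/
theorem kq2 (h2 : 2 ≤ pkc V) : ∃ x l, 1 ≤ l ∧ 2 * l ≤ j2 + pkc V + 1 ∧ x + 2 * l = 2 * (j2 + pkc V) ∧
    KPh V KHq 0 x 1 (2 * (j2 + pkc V)) 1 := by
  obtain ⟨v, R, q, hv, hR, hR0, hmin⟩ := exists_endV h2
  have hp := pkc_of hv
  obtain ⟨h3, h4⟩ := end_size hR hmin (by rw [hp]; exact h2)
  have hj : R.numNodes + (q + 1) = j2 := by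
    have := X_num v
    rw [hR, num_app, pc_num] at this
    exact this
  refine ⟨2 * (inf R).numNodes, q + 2, by omega, by omega, by omega, v, hv, ?_⟩
  obtain ⟨u, hu⟩ : ∃ u : X (j2 + pkc V + 0), u.1 = inf v.1 :=
    ⟨⟨inf v.1, mem_treesOfNumNodesEq.2 (by rw [inf_num_kh, hp]; rfl)⟩, rfl⟩
  have e : (ev (2 * (inf R).numNodes) 1 (2 * (j2 + pkc V)) 1 : ZMod (2 * (j2 + pkc V + 0) + 1) → ℕ) =
      fun z => (ev (2 * (inf R).numNodes) 1 0 0 : ZMod (2 * (j2 + pkc V + 0) + 1) → ℕ) z +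
        if z = -1 then 1 else 0 := by
    funext z
    unfold ev
    have h5 : z.val = 2 * (j2 + pkc V) ↔ z = -1 := neg_one_val (j2 + pkc V + 0) z
    simp only [h5]
    simp
  rw [ins_zero_m, e, ← hu, ins_back, hu, k1_word hR (by omega)]
  right; right; right; left
  refine ⟨inf (inf R), q, ?_, hv_inf2' R, inf_ne_nil (inf_ne_nil hR0)⟩
  rw [app_assoc']
  rfl

/-- **K2** -/
theorem kqp (h2 : 2 ≤ pkc V) (m : ℕ) (hm : 2 ≤ m) : ∃ x b y c, x < 2 * (j2 + pkc V) + 1 ∧ y < 2 * (j2 + pkc V) + 1 ∧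
    b + c = m ∧ KPh V KHq 0 x b y c := by
  obtain ⟨v, R, q, hv, hR, hR0, hmin⟩ := exists_endV h2
  have hp := pkc_of hv
  refine ⟨2 * (j2 + pkc V), m, 0, 0, by omega, by omega, rfl, v, hv, ?_⟩
  obtain ⟨u, hu⟩ : ∃ u : X (j2 + pkc V + 0), u.1 = inf v.1 :=
    ⟨⟨inf v.1, mem_treesOfNumNodesEq.2 (by rw [inf_num_kh, hp]; rfl)⟩, rfl⟩
  have e : (ev (2 * (j2 + pkc V)) m 0 0 : ZMod (2 * (j2 + pkc V + 0) + 1) → ℕ) =
      fun z => (fun _ => 0) z + if z = -1 then m else 0 := by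
    funext z
    unfold ev
    have h5 : z.val = 2 * (j2 + pkc V) ↔ z = -1 := neg_one_val (j2 + pkc V + 0) z
    simp only [h5]
    simp
  rw [ins_zero_m, e, ← hu, ins_backs, ins_zero_kh, hu]
  right; right; left
  obtain ⟨m, rfl⟩ : ∃ m', m = m' + 2 := ⟨m - 2, by omega⟩
  exact ⟨inf (inf v.1), m, rfl, hv_inf2' v.1, inf_ne_nil (inf_ne_nil (by rw [hR]; exact fun h => hR0 (H1.app_eq_nil.1 h).1))⟩

/-- **K3** over every phase -/
theorem kqn (h2 : 2 ≤ pkc V) (m : ℕ) (hm : 2 ≤ m) : KNr V KHq m := by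
  intro v hv
  have hp := pkc_of hv
  obtain ⟨u, hu⟩ : ∃ u : X (j2 + pkc V + 0), u.1 = inf v.1 :=
    ⟨⟨inf v.1, mem_treesOfNumNodesEq.2 (by rw [inf_num_kh, hp]; rfl)⟩, rfl⟩
  have hn := inf_num_kh v
  -- the last component of `v`
  obtain ⟨v1, A0, hA⟩ : ∃ v1 A0 : BinaryTree Unit, v.1 = app v1 (A0 △ .nil) := by
    have hv0 : v.1 ≠ .nil := by
      intro h
      rw [← hp, h] at h2
      change 2 ≤ 0 at h2
      omega
    generalize v.1 = t at hv0
    clear hn hu hp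
    induction t with
    | nil => exact absurd rfl hv0
    | node _ A B _ ihB =>
      by_cases hB : B = .nil
      · subst hB
        exact ⟨.nil, A, rfl⟩
      · obtain ⟨w1, A0, h⟩ := ihB hB
        exact ⟨A △ w1, A0, by rw [h]; rfl⟩
  have hI : inf v.1 = app (inf v1) (inf1 A0 △ .nil) := by
    rw [hA, inf_app, inf_node, inf_nil]
  have hnum : (inf v1).numNodes + (inf1 A0).numNodes + 1 = j2 + pkc V := by
    rw [← hp, ← hn, hI, num_app]
    change _ = _ + ((inf1 A0).numNodes + 0 + 1)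
    ring
  obtain ⟨m, rfl⟩ : ∃ m', m = m' + 2 := ⟨m - 2, by omega⟩
  have hJ : 1 ≤ j2 + pkc V := by omega
  have e : (ev (2 * (j2 + pkc V) - 1) 1 (2 * (j2 + pkc V)) (m + 2 - 1) : ZMod (2 * (j2 + pkc V + 0) + 1) → ℕ) =
      fun z => (ev (2 * (j2 + pkc V) - 1) 1 0 0 : ZMod (2 * (j2 + pkc V + 0) + 1) → ℕ) z +
        if z = -1 then m + 1 else 0 := by
    funext z
    unfold ev
    have h5 : z.val = 2 * (j2 + pkc V) ↔ z = -1 := neg_one_val (j2 + pkc V + 0) z
    simp only [h5]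
    simp
  have e1 : (ev (2 * (j2 + pkc V) - 1) 1 0 0 : ZMod (2 * (j2 + pkc V + 0) + 1) → ℕ) =
      fun z => if z = ((2 * (j2 + pkc V) - 1 : ℕ) : ZMod (2 * (j2 + pkc V + 0) + 1)) then 1 else 0 := by
    funext z
    unfold ev
    simp only [val_eq_iff z (show 2 * (j2 + pkc V) - 1 < 2 * (j2 + pkc V + 0) + 1 by omega)]
    simp
  have e2 : lf (ev (2 * (j2 + pkc V) - 1) 1 0 0 : ZMod (2 * (j2 + pkc V + 0) + 1) → ℕ) =
      List.replicate (2 * (inf v1).numNodes + 1 + 2 * (inf1 A0).numNodes) 0 ++ [1, 0] := by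
    rw [e1, ← pile_lf (x := 2 * (j2 + pkc V) - 1) (y := 1) (by omega)]
    have : 2 * (j2 + pkc V) - 1 = 2 * (inf v1).numNodes + 1 + 2 * (inf1 A0).numNodes := by omega
    rw [this]
    rfl
  rw [ins_zero_m, e, ← hu, ins_backs, hu, e2, hI, ins_bead_in _ _ (inf1_ne_nil A0)]
  right; right; right; right; left
  refine ⟨inf (inf v1), inf (inf1 A0), m, ?_, hv_inf2' v1, ?_⟩
  · rw [app_assoc']
    rfl
  · by_cases hA0 : A0 = .nil
    · left
      subst hA0
      refine ⟨?_, rfl⟩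
      apply inf_ne_nil
      apply inf_ne_nil
      rintro rfl
      rw [← hp, hA] at h2
      change 2 ≤ 1 + 0 + 0 at h2
      omega
    · right
      rw [inf1_eq hA0]
      exact ⟨hv_inf2' A0, inf_ne_nil (inf_ne_nil hA0)⟩

/-- **K4** -/
theorem kq4 (h2 : 2 ≤ pkc V) (a : ℕ) (ha : 1 ≤ a) : KPh V KHq a 0 0 0 0 := by
  obtain ⟨v, hv, -, h4, h5⟩ := kh4_ns h2 a ha
  exact ⟨v, hv, Or.inr (Or.inr (Or.inr (Or.inr (Or.inr ⟨h4, h5⟩))))⟩

end

end Pool.OddHC
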