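import Pool.Agent.Work.MP_8f87b2_h27.Inn6
import Pool.Agent.Work.MP_8f87b2_h13.A0Sh
import Pool.Agent.Work.MP_8f87b2_h62.W3f
import Pool.Agent.Work.MP_8f87b2_h58.InA0

/-!
# The shapes of the right K links (host `(S)()`, new words `S(())`, `()()S`)

`KHp S`: K0 `S1[q]`, K1 `S1()[q]`, K2 `S0()^(m+2)`, K2' `S1()[q]()`, K3 `S1(A())()^(m+1)`, K4 `S0(())^(a+1)`; heavy words `S1`,
`S0`, not empty. Consequences: `UM S`, `3 ≤ ht S`, `KSh S` (helper13), and the rows of the type `TyKh`.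
-/

set_option autoImplicit false

namespace Pool.OddHC

open Finset Equiv BinaryTree Pool.Agent.Work.MP_8f87b2_co

variable {k : ℕ}

/-- K0 : `S1[q]`, `q ≥ 3` the smallest part -/
def KH0 (S : BinaryTree Unit) : Prop := ∃ S1 q, S = app S1 (pc (q + 3)) ∧ H1.hv S1 ∧ S1 ≠ .nil ∧
  ∀ x ∈ cont S, q + 3 ≤ x
/-- K1 : `S1()[q]` -/
def KH1 (S : BinaryTree Unit) : Prop := ∃ S1 q, S = app S1 (.nil △ pc (q + 3)) ∧ H1.hv S1 ∧ S1 ≠ .nil
/-- K2 : `S0()^(m+2)` -/
def KH2 (S : BinaryTree Unit) : Prop := ∃ S0 m, S = app S0 (lp (m + 2)) ∧ H1.hv S0 ∧ S0 ≠ .nil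
/-- K2' : `S1()[q]()` -/
def KH2' (S : BinaryTree Unit) : Prop :=
  ∃ S1 q, S = app S1 (.nil △ app (pc (q + 3)) (lp 1)) ∧ H1.hv S1 ∧ S1 ≠ .nil
/-- K3 : `S1(A())()^(m+1)` -/
def KH3 (S : BinaryTree Unit) : Prop := ∃ S1 A m, S = app S1 (app A (lp 1) △ lp (m + 1)) ∧ H1.hv S1 ∧
  ((S1 ≠ .nil ∧ A = pc 2) ∨ (H1.hv A ∧ A ≠ .nil))
/-- K4 : `S0(())^(a+1)` -/
def KH4 (S : BinaryTree Unit) : Prop := ∃ S0 a, S = app S0 (lv2 (a + 1) .nil) ∧ H1.hv S0 ∧ S0 ≠ .nil

/-- the words `S` of the right K links -/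
def KHp (S : BinaryTree Unit) : Prop := KH0 S ∨ KH1 S ∨ KH2 S ∨ KH2' S ∨ KH3 S ∨ KH4 S

variable {S : BinaryTree Unit}

theorem hv_ht_kh : ∀ {S : BinaryTree Unit}, H1.hv S → S ≠ .nil → 3 ≤ ht S
  | .nil, _, h => absurd rfl h
  | .node _ A X, h, _ => by
    change 3 ≤ ht (A △ X)
    rw [ht_node]
    rcases h.1 with rfl | ⟨h1, h2⟩
    · have : ht (((.nil : BinaryTree Unit) △ .nil) △ .nil) = 2 := rfl
      omega
    · have := hv_ht_kh h2 h1
      omega

theorem KHp.ht3 (h : KHp S) : 3 ≤ ht S := by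
  have key : ∀ S1 X : BinaryTree Unit, H1.hv S1 → S1 ≠ .nil → 3 ≤ ht (app S1 X) := by
    intro S1 X h1 h2
    have := hv_ht_kh h1 h2
    rw [ht_app]
    omega
  rcases h with ⟨S1, q, rfl, h1, h2, -⟩ | ⟨S1, q, rfl, h1, h2⟩ | ⟨S1, q, rfl, h1, h2⟩ | ⟨S1, q, rfl, h1, h2⟩ |
    ⟨S1, A, m, rfl, h1, ⟨h2, -⟩ | ⟨h2, h3⟩⟩ | ⟨S1, q, rfl, h1, h2⟩
  · exact key _ _ h1 h2
  · exact key _ _ h1 h2
  · exact key _ _ h1 h2
  · exact key _ _ h1 h2
  · exact key _ _ h1 h2
  · have := hv_ht_kh h2 h3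
    rw [ht_app, ht_node, ht_app]
    omega
  · exact key _ _ h1 h2

theorem KHp.ne (h : KHp S) : S ≠ .nil := by
  rintro rfl
  have := h.ht3
  rw [ht] at this
  omega

theorem hA_ch {S1 A : BinaryTree Unit} (h : (S1 ≠ .nil ∧ A = pc 2) ∨ (H1.hv A ∧ A ≠ .nil)) :
    A = H1.ch 2 ∨ (H1.hv A ∧ A ≠ .nil) := by
  rcases h with h | h
  · left
    rw [H1.ch_eq, h.2]
  · exact Or.inr h

theorem am_lv2 (a : ℕ) : H1.am (lv2 a .nil) = false := by
  induction a with
  | zero => rfl
  | succ a ih =>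
    change H1.am ((.nil △ .nil) △ lv2 a .nil) = false
    rw [H1.am_node, ih]
    rfl

/-- **unmarked** -/
theorem KHp.um (h : KHp S) : H1.UM S := by
  rcases h with ⟨S1, q, rfl, h1, h2, -⟩ | ⟨S1, q, rfl, h1, h2⟩ | ⟨S1, q, rfl, h1, h2⟩ | ⟨S1, q, rfl, h1, h2⟩ |
    ⟨S1, A, m, rfl, h1, h3⟩ | ⟨S1, q, rfl, h1, h2⟩
  · rw [← H1.ch_eq]
    exact H1.um_app h1 h2 (H1.um_ch _).am
  · rw [← H1.ch_eq]
    exact H1.um_K1 _ h1 h2
  · exact H1.um_back _ h1 h2
  · rw [← H1.ch_eq]
    exact H1.um_K1b _ _ h1 h2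
  · exact H1.um_K3 m h1 (hA_ch h3)
  · exact H1.um_app h1 h2 (am_lv2 _)

theorem lv2_snoc (a : ℕ) : lv2 (a + 1) .nil = app (lv2 a .nil) (pc 2) := by
  induction a with
  | zero => rfl
  | succ a ih =>
    change (.nil △ .nil) △ lv2 (a + 1) .nil = (.nil △ .nil) △ app (lv2 a .nil) (pc 2)
    rw [ih]

theorem lp_snoc2 (m : ℕ) : lp (m + 2) = app (lp m) (.nil △ (.nil △ .nil)) := by
  induction m with
  | zero => rfl
  | succ m ih =>
    change .nil △ lp (m + 2) = .nil △ app (lp m) (.nil △ (.nil △ .nil))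
    rw [ih]

theorem hv_part {S : BinaryTree Unit} : H1.hv S → ∀ x ∈ cont S, 3 ≤ x := by
  induction S with
  | nil => intro _ x hx; exact absurd hx (Multiset.notMem_zero _)
  | node _ A X ihA ihX =>
    intro h x hx
    change x ∈ cont (A △ X) at hx
    rw [cont_node, Multiset.mem_add] at hx
    rcases hx with hx | hx
    · rcases h.1 with rfl | ⟨h1, h2⟩
      · have : raise (cont (((.nil : BinaryTree Unit) △ .nil) △ .nil)) = {3} := rfl
        rw [this, Multiset.mem_singleton] at hx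
        omega
      · unfold raise at hx
        rw [Multiset.mem_cons] at hx
        rcases hx with rfl | hx
        · have := hv_ht_kh h2 h1
          rw [ht_eq] at this
          omega
        · exact ihA h2 x (Multiset.mem_of_mem_erase hx)
    · exact ihX h.2 x hx

/-- **helper13's shape** -/
theorem KHp.ksh (h : KHp S) : KSh S := by
  rcases h with ⟨S1, q, rfl, h1, h2, h3⟩ | ⟨S1, q, rfl, h1, h2⟩ | ⟨S1, m, rfl, h1, h2⟩ | ⟨S1, q, rfl, h1, h2⟩ |
    ⟨S1, A, m, rfl, h1, h3⟩ | ⟨S1, a, rfl, h1, h2⟩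
  · right; right; right; right
    exact ⟨S1, q + 2, by omega, rfl, h3⟩
  · right; right; right; left
    exact ⟨S1, q + 2, by omega, rfl⟩
  · left
    exact ⟨app S1 (lp m), by rw [lp_snoc2, app_assoc']⟩
  · right; left
    exact ⟨S1, q + 2, rfl⟩
  · rcases m with _ | m
    · right; right; left
      refine ⟨S1, A, ?_, rfl⟩
      rcases h3 with ⟨_, rfl⟩ | ⟨_, h3⟩
      · simp [pc]
      · exact h3
    · left
      refine ⟨app S1 (app A (lp 1) △ lp m), ?_⟩
      rw [lp_snoc2, app_assoc']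
      rfl
  · right; right; right; right
    refine ⟨app S1 (lv2 a .nil), 1, le_rfl, by rw [lv2_snoc, app_assoc'], ?_⟩
    intro x hx
    rw [cont_app, cont_lv2, cont_nil, add_zero, Multiset.mem_add, Multiset.mem_replicate] at hx
    rcases hx with hx | ⟨_, rfl⟩
    · have := hv_part h1 x hx
      omega
    · omega

/-! ### The type and the rows -/

/-- TYPE K of the plan -/
def TyKh (F : Set (Cyc k)) (g : DG k) : Prop := ∃ S : BinaryTree Unit, KHp S ∧ TyK S F g

variable {F F' : Set (Cyc k)} {g g' : DG k}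

theorem TyKh.kk (h : TyKh F g) : TyKK F g := by
  obtain ⟨S, h1, h2⟩ := h
  exact ⟨S, by have := h1.ht3; omega, h2⟩

theorem dj_AKh : Dj (k := k) TyA TyKh := by
  intro F g F' g' h h' _
  obtain ⟨S, h1, h2⟩ := h'
  exact h.disj_K h2 h1.um

theorem dj_A0Kh : Dj (k := k) TyA0 TyKh := by
  intro F g F' g' h h' _
  obtain ⟨S, h1, h2⟩ := h'
  exact h.disj_K h1.ksh h2

theorem dj_B0Kh : Dj (k := k) TyB0 TyKh := by
  intro F g F' g' h h' _
  obtain ⟨S, h1, h2⟩ := h'
  exact h.disj_K h1.ksh h2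

/-! #### T -/

theorem count2_hv {S : BinaryTree Unit} (h : H1.hv S) : (cont S).count 2 = 0 := by
  rw [Multiset.count_eq_zero]
  intro h2
  have := hv_part h 2 h2
  omega

theorem count1_hv {S : BinaryTree Unit} (h : H1.hv S) : (cont S).count 1 = 0 := by
  rw [Multiset.count_eq_zero]
  intro h2
  have := hv_part h 1 h2
  omega

/-- **T against K**, no part 2 and at most three beads -/
theorem dj_TKc {S : BinaryTree Unit} (h : TyT F g) (h' : TyK S F' g') (hS : H1.gd (H1.t3hd S)) (hne : S ≠ .nil)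
    (h2 : (cont S).count 2 = 0) (h1 : (cont S).count 1 ≤ 3) (hd : ∀ c ∈ F, c ∉ F') :
    ∀ w ∈ g.B, w ∉ g'.B := by
  intro w hw hw'
  obtain ⟨b, m, a, w0, hG, rfl, rfl⟩ := h
  obtain ⟨i, hi, rfl⟩ := mem_gad20.1 hw
  have e1 := hG.word w0 hi
  have ha := hG.pos
  have hc : ∀ {X : BinaryTree Unit}, S = app (H1.S3 m a) X → False := by
    intro X e
    rw [e, cont_app, Multiset.count_add, H1.count2_S3] at h2
    omega
  rcases h'.words _ hw' with e2 | ⟨hF, e2 | e2⟩
  · exact hc (H1.t3_host hG.mpos hi hS (e1.symm.trans e2)).2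
  · have e : H1.w3 b m a i = app S ((.nil △ .nil) △ .nil) := e1.symm.trans e2
    have k1 := hS
    rw [← H1.hd_app hne ((.nil △ .nil) △ .nil), ← e] at k1
    rcases H1.t3_hd hG.mpos hi k1 with rfl | ⟨rfl, hb⟩ | rfl | rfl
    · exact hd _ rfl (by rw [← hG.cyc10 w0 e1]; exact hF)
    · have e3 := congrArg cont e
      rw [H1.cont_w3_11, cont_app] at e3
      have e4 := congrArg (Multiset.count 1) e3
      simp only [Multiset.count_add, Multiset.count_replicate, Multiset.count_singleton] at e4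
      have : (cont (((.nil : BinaryTree Unit) △ .nil) △ .nil)).count 1 = 0 := by decide
      have := hG.mpos
      simp at e4
      omega
    · obtain ⟨a, rfl⟩ : ∃ a', a = a' + 1 := ⟨a - 1, by omega⟩
      have e3 := congrArg H1.t3rv e
      rw [H1.rv_w3 b m _ 13 hi, H1.t3rv_app, show H1.t3rv (((.nil : BinaryTree Unit) △ .nil) △ .nil) =
        (.nil △ .nil) △ .nil from rfl] at e3
      have e4 : H1.rw3 b m (a + 1) 13 = (.nil △ .nil) △ H1.t3rv S := e3
      rw [H1.rw3_13] at e4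
      have e5 := (H1.node_inj e4).1
      cases b <;> simp [H1.th, app] at e5
    · obtain ⟨a, rfl⟩ : ∃ a', a = a' + 1 := ⟨a - 1, by omega⟩
      have e3 := congrArg H1.t3rv e
      rw [H1.rv_w3 b m _ 16 hi, H1.t3rv_app, show H1.t3rv (((.nil : BinaryTree Unit) △ .nil) △ .nil) =
        (.nil △ .nil) △ .nil from rfl] at e3
      have e4 : H1.rw3 b m (a + 1) 16 = (.nil △ .nil) △ H1.t3rv S := e3
      rw [H1.rw3_16] at e4
      have e5 := (H1.node_inj e4).2
      have e6 : S = app (H1.S3 m (a + 1)) (H1.th b .nil △ .nil) := by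
        rw [← H1.t3rv_rv S, ← e5, H1.t3rv_node, H1.t3rv_rv]
      exact hc e6
  · exact hc (H1.t3_bbS hG.mpos hi hS (e1.symm.trans e2)).2

theorem gd_hd_hv {S X : BinaryTree Unit} (h : H1.hv S) (h0 : S ≠ .nil) : H1.gd (H1.t3hd (app S X)) := by
  cases S with
  | nil => exact absurd rfl h0
  | node _ A Y => exact h.1

theorem bl_lp_kh (m : ℕ) : H1.bl (lp m) = true := by
  induction m with
  | zero => rfl
  | succ m ih => exact ih

theorem bl_lv2 (m : ℕ) : H1.bl (lv2 m .nil) = true := by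
  induction m with
  | zero => rfl
  | succ m ih => exact ih

theorem cont_lp_kh (m : ℕ) : cont (lp m) = Multiset.replicate m 1 := by
  unfold lp
  rw [cont_lv, cont_nil, add_zero]

namespace H1

theorem app_lf_hv {A2 Y : BinaryTree Unit} (h : hv A2) (e : BinaryTree.nil △ Y = app A2 (.nil △ .nil)) : Y = .nil := by
  cases A2 with
  | nil => exact (node_inj e).2
  | node _ B1 B2 =>
    exfalso
    have e1 := (node_inj e).1
    rcases h.1 with h1 | ⟨h1, _⟩
    · rw [← e1] at h1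
      exact absurd h1 (by simp)
    · exact h1 e1.symm

theorem t3_host3 {b m a : ℕ} {A1 A2 X : BinaryTree Unit} (hm : 1 ≤ m) {i : ℕ} (hi : i < 20) (hA : gd A1)
    (e : w3 b m a i = ((A1 △ app A2 (.nil △ .nil)) △ (.nil △ X)) △ (.nil △ .nil)) : False := by
  obtain ⟨m, rfl⟩ : ∃ m', m = m' + 1 := ⟨m - 1, by omega⟩
  rw [w3_fw b _ a i hi] at e
  interval_cases i <;> rcases b with _ | _ | b <;>
    simp [fw3, th, app, L3_m, t3G, app_eq_nil] at e <;>
    (exfalso; obtain ⟨⟨rfl, -⟩, -⟩ := e; simp [gd, hv] at hA)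

theorem t3_bbS3 {b m a : ℕ} {A1 A2 X : BinaryTree Unit} (hm : 1 ≤ m) {i : ℕ} (hi : i < 20) (hA : gd A1)
    (e : w3 b m a i = .nil △ (.nil △ ((A1 △ app A2 (.nil △ .nil)) △ (.nil △ X)))) : False := by
  obtain ⟨m, rfl⟩ : ∃ m', m = m' + 1 := ⟨m - 1, by omega⟩
  rw [w3_fw b _ a i hi] at e
  interval_cases i <;> rcases b with _ | _ | b <;>
    simp [fw3, th, app, L3_m, t3G, app_eq_nil] at e <;>
    (exfalso; obtain ⟨⟨rfl, -⟩, -⟩ := e; simp [gd, hv] at hA)

theorem t3_St3 {b m a : ℕ} {A1 A2 X : BinaryTree Unit} (hm : 1 ≤ m) (ha : 1 ≤ a) {i : ℕ} (hi : i < 20) (hA : gd A1)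
    (hA2 : hv A2) (e : w3 b m a i = (A1 △ app A2 (.nil △ .nil)) △ (.nil △ X)) : False := by
  obtain ⟨m, rfl⟩ : ∃ m', m = m' + 1 := ⟨m - 1, by omega⟩
  have hL : L3 m a ≠ .nil := by
    obtain ⟨a, rfl⟩ : ∃ a', a = a' + 1 := ⟨a - 1, by omega⟩
    cases m <;> simp [L3, lv, lv2]
  rw [w3_fw b _ a i hi] at e
  interval_cases i <;> rcases b with _ | _ | b <;>
    simp [fw3, th, app, L3_m, t3G, app_eq_nil] at e <;>
    first
      | (exfalso; obtain ⟨⟨rfl, -⟩, -⟩ := e; simp [gd, hv] at hA; done)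
      | (obtain ⟨⟨-, e1⟩, -⟩ := e
         have := app_lf_hv hA2 e1
         first
           | exact hL this
           | exact hL (app_eq_nil.1 this).1)

end H1

/-- **T against K3 without `S1`** -/
theorem dj_TK3 {A : BinaryTree Unit} {m' : ℕ} (h : TyT F g) (h' : TyK (app A (lp 1) △ lp (m' + 1)) F' g')
    (hA : H1.hv A) (h0 : A ≠ .nil) : ∀ w ∈ g.B, w ∉ g'.B := by
  intro w hw hw'
  obtain ⟨b, m, a, w0, hG, rfl, rfl⟩ := h
  obtain ⟨i, hi, rfl⟩ := mem_gad20.1 hw
  have e1 := hG.word w0 hi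
  cases A with
  | nil => exact h0 rfl
  | node _ A1 A2 =>
    rcases h'.words _ hw' with e2 | ⟨hF, e2 | e2⟩
    · exact H1.t3_host3 hG.mpos hi hA.1 (e1.symm.trans e2)
    · exact H1.t3_St3 hG.mpos hG.pos hi hA.1 hA.2 (e1.symm.trans e2)
    · exact H1.t3_bbS3 hG.mpos hi hA.1 (e1.symm.trans e2)

/-- **T - K** -/
theorem dj_TKh : Dj (k := k) TyT TyKh := by
  intro F g F' g' h h' hd
  obtain ⟨S, hS, h2⟩ := h'
  have hpc : ∀ q, (cont (pc (q + 3))).count 2 = 0 ∧ (cont (pc (q + 3))).count 1 = 0 := by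
    intro q
    rw [cont_pc, Multiset.count_singleton, Multiset.count_singleton, if_neg (by omega), if_neg (by omega)]
    exact ⟨rfl, rfl⟩
  have hn : (cont ((.nil : BinaryTree Unit) △ .nil)).count 2 = 0 ∧ (cont ((.nil : BinaryTree Unit) △ .nil)).count 1 = 1 := by
    decide
  rcases hS with ⟨S1, q, rfl, h3, h4, -⟩ | ⟨S1, q, rfl, h3, h4⟩ | ⟨S1, m, rfl, h3, h4⟩ | ⟨S1, q, rfl, h3, h4⟩ |
    ⟨S1, A, m, rfl, h3, h5⟩ | ⟨S1, a, rfl, h3, h4⟩
  · refine dj_TKc h h2 (gd_hd_hv h3 h4) (by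
      intro e
      have := congrArg ht e
      rw [ht_app] at this
      have := hv_ht_kh h3 h4
      have : ht (.nil : BinaryTree Unit) = 0 := rfl
      omega) ?_ ?_ hd
    · rw [cont_app, Multiset.count_add, count2_hv h3, (hpc q).1]
    · rw [cont_app, Multiset.count_add, count1_hv h3, (hpc q).2]
      omega
  · refine dj_TKc h h2 (gd_hd_hv h3 h4) (by
      intro e
      have := congrArg ht e
      rw [ht_app] at this
      have := hv_ht_kh h3 h4
      have : ht (.nil : BinaryTree Unit) = 0 := rfl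
      omega) ?_ ?_ hd
    · rw [cont_app, cont_node, cont_nil, raise_zero, Multiset.count_add, Multiset.count_add, count2_hv h3, (hpc q).1]
      decide
    · rw [cont_app, cont_node, cont_nil, raise_zero, Multiset.count_add, Multiset.count_add, count1_hv h3, (hpc q).2]
      decide
  · refine dj_TK' h h2 ⟨H1.Hf.of h3 h4 (bl_lp_kh _), Or.inr ?_⟩ hd
    rw [cont_app, Multiset.count_add, count2_hv h3, cont_lp_kh, Multiset.count_replicate]
    simp
  · refine dj_TKc h h2 (gd_hd_hv h3 h4) (by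
      intro e
      have := congrArg ht e
      rw [ht_app] at this
      have := hv_ht_kh h3 h4
      have : ht (.nil : BinaryTree Unit) = 0 := rfl
      omega) ?_ ?_ hd
    · rw [cont_app, cont_node, cont_nil, raise_zero, cont_app, Multiset.count_add, Multiset.count_add,
        Multiset.count_add, count2_hv h3, (hpc q).1]
      decide
    · rw [cont_app, cont_node, cont_nil, raise_zero, cont_app, Multiset.count_add, Multiset.count_add,
        Multiset.count_add, count1_hv h3, (hpc q).2]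
      decide
  · by_cases h4 : S1 = .nil
    · subst h4
      rcases h5 with ⟨h5, -⟩ | ⟨h5, h6⟩
      · exact absurd rfl h5
      · exact dj_TK3 h h2 h5 h6
    have hlA : H1.light (app A (lp 1)) = false := by
      rcases h5 with ⟨-, rfl⟩ | ⟨h5, h6⟩
      · rfl
      · cases A with
        | nil => exact absurd rfl h6
        | node _ A' Y =>
          cases h7 : H1.light (A' △ app Y (lp 1)) with
          | false => exact h7
          | true =>
            exfalso
            rcases H1.light_cases h7 with e | e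
            · exact absurd e (by simp)
            · have e1 := (H1.node_inj e).1
              have := h5.1
              rw [e1] at this
              rcases this with h8 | ⟨h8, _⟩
              · exact absurd h8 (by simp)
              · exact h8 rfl
    refine dj_TK' h h2 ⟨⟨gd_hd_hv h3 h4, ?_⟩, Or.inr ?_⟩ hd
    · have e : app S1 (app A (lp 1) △ lp (m + 1)) = app (app S1 (app A (lp 1) △ .nil)) (lp (m + 1)) := by
        rw [app_assoc']
        rfl
      rw [e, H1.t3rv_app, H1.hr_bl _ _ (bl_lp_kh _)]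
      apply H1.nl_hr
      rw [H1.t3rv_app, H1.nl_app, H1.nl_rv h3]
      change (((!H1.light (app A (lp 1))) && true) && true) = true
      rw [hlA]
      rfl
    · have hA2 : (raise (cont (app A (lp 1)))).count 2 = 0 := by
        rcases h5 with ⟨-, rfl⟩ | ⟨h5, h6⟩
        · decide
        · have h7 := hv_ht_kh h5 h6
          have h8 : 3 ≤ (cont (app A (lp 1))).sup := by
            rw [← ht_eq, ht_app]
            omega
          rw [count_raise 2 (by omega) (by omega), cont_app, Multiset.count_add, count2_hv h5]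
          decide
      rw [cont_app, cont_node, Multiset.count_add, Multiset.count_add, count2_hv h3, hA2, cont_lp_kh,
        Multiset.count_replicate]
      simp
  · refine dj_TK' h h2 ⟨H1.Hf.of h3 h4 (bl_lv2 _), Or.inl ?_⟩ hd
    rw [lv2_snoc, ← app_assoc', H1.lastB_app (by simp [pc])]
    rfl

end Pool.OddHC
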