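import Pool.Agent.Work.MP_8f87b2_end.Red
import Pool.Agent.Work.MP_8f87b2_base.Area
import Mathlib.NumberTheory.Real.GoldenRatio

/-!
# The number of the words without a part 1 (helper2)

`NB n` = number of the plane trees with `n` edges whose content has no part 1 (RNA numbers 1, 0, 1, 1, 2, 4, 8, 17, 37, ..).
`NB_succ`: the recursion. `NB_le`: `NB n <= phi^(2n+1)`, `phi` the golden ratio. `card_cyc`: the T-cycles without a part 1.
-/

set_option autoImplicit false

namespace Pool.OddHC

open Finset BinaryTree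

namespace Cnt2

/-- the number of the words without a part 1 -/
def NB (n : ℕ) : ℕ := ∑ t ∈ treesOfNumNodesEq n, if (OddHC.cont t).count 1 = 0 then 1 else 0

/-- the number of the insides of the components of the words without a part 1 -/
def CB (n : ℕ) : ℕ := ∑ t ∈ treesOfNumNodesEq n, if (raise (OddHC.cont t)).count 1 = 0 then 1 else 0

theorem NB_zero : NB 0 = 1 := by
  unfold NB
  rw [treesOfNumNodesEq_zero, sum_singleton]
  rfl

theorem NB_rec (n : ℕ) : NB (n + 1) = ∑ ij ∈ antidiagonal n, CB ij.1 * NB ij.2 := by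
  unfold NB
  rw [sum_succ]
  refine sum_congr rfl fun ij _ => ?_
  unfold CB
  rw [sum_mul_sum]
  refine sum_congr rfl fun A _ => sum_congr rfl fun B _ => ?_
  rw [OddHC.cont_node, Multiset.count_add]
  by_cases h1 : (raise (OddHC.cont A)).count 1 = 0
  · by_cases h2 : (OddHC.cont B).count 1 = 0
    · rw [if_pos h1, if_pos h2, if_pos (by omega), one_mul]
    · rw [if_pos h1, if_neg h2, if_neg (by omega), mul_zero]
  · rw [if_neg h1, zero_mul, if_neg (by omega)]

theorem CB_zero : CB 0 = 0 := by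
  unfold CB
  rw [treesOfNumNodesEq_zero, sum_singleton]
  rfl

theorem NB_one : NB 1 = 0 := by
  rw [NB_rec 0]
  simp [CB_zero]

theorem raise_one {M : Multiset ℕ} (hpos : ∀ x ∈ M, 1 ≤ x) (h : 2 ≤ M.sum) (h1 : (raise M).count 1 = 0) :
    M.count 1 = 0 := by
  have hM : M ≠ 0 := by
    rintro rfl
    simp at h
  have hs : 1 ≤ M.sup := hpos _ (sup_mem hM)
  rcases Nat.lt_or_ge 1 M.sup with h2 | h2
  · rw [← h1, count_raise 1 (by omega) (by omega)]
  · exfalso
    have hs1 : M.sup = 1 := by omega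
    have hall : M = Multiset.replicate (Multiset.card M) 1 := by
      rw [Multiset.eq_replicate]
      refine ⟨rfl, fun b hb => ?_⟩
      have h3 := hpos b hb
      have h4 := Multiset.le_sup hb
      omega
    have h5 := count_raise_sup hM
    rw [hs1, h1] at h5
    rw [hall, Multiset.sum_replicate] at h
    rw [hall, Multiset.count_replicate_self] at h5
    simp at h
    omega

theorem NB_raise {M : Multiset ℕ} (h : 2 ≤ M.sum) (h1 : M.count 1 = 0) : (raise M).count 1 = 0 := by
  have hM : M ≠ 0 := by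
    rintro rfl
    simp at h
  have hs : M.sup ≠ 1 := by
    intro h2
    have := sup_mem hM
    rw [h2, ← Multiset.count_pos] at this
    omega
  have hs0 : M.sup ≠ 0 := by
    intro h2
    have hall : ∀ x ∈ M, x = 0 := fun x hx => by
      have := Multiset.le_sup hx
      omega
    have := Multiset.sum_eq_zero hall
    omega
  rw [count_raise 1 (fun h => hs h.symm) (by omega), h1]

theorem CB_ge {n : ℕ} (hn : 2 ≤ n) : CB n = NB n := by
  unfold CB NB
  refine sum_congr rfl fun t ht => ?_
  have hs : (OddHC.cont t).sum = n := by rw [cont_sum, mem_treesOfNumNodesEq.1 ht]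
  by_cases h1 : (OddHC.cont t).count 1 = 0
  · rw [if_pos h1, if_pos (NB_raise (by omega) h1)]
  · rw [if_neg h1, if_neg fun h => h1 (raise_one (cont_pos t) (by omega) h)]

theorem CB_one : CB 1 = 1 := by
  unfold CB
  rw [sum_succ]
  have h0 : HasAntidiagonal.antidiagonal 0 = ({(0, 0)} : Finset (ℕ × ℕ)) := rfl
  rw [h0, sum_singleton, treesOfNumNodesEq_zero, sum_singleton, sum_singleton]
  rfl

/-- the recursion of the RNA numbers -/
theorem NB_succ (n : ℕ) : NB (n + 1) =
    ∑ ij ∈ antidiagonal n, (if ij.1 = 0 then 0 else if ij.1 = 1 then 1 else NB ij.1) * NB ij.2 := by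
  rw [NB_rec]
  refine sum_congr rfl fun ij _ => ?_
  congr 1
  split_ifs with h1 h2
  · rw [h1, CB_zero]
  · rw [h2, CB_one]
  · exact CB_ge (by omega)

/-! ### The bound -/

theorem partial_le (x : ℝ) (C : ℝ) (hx : 0 ≤ x) (hC1 : 1 ≤ C) (hC : 1 + x * ((x + C - 1) * C) ≤ C) (N : ℕ) :
    ∑ n ∈ range N, (NB n : ℝ) * x ^ n ≤ C := by
  induction N with
  | zero => simp; linarith
  | succ N ih =>
    rw [sum_range_succ', NB_zero, Nat.cast_one, pow_zero, mul_one]
    have hnn : 0 ≤ ∑ n ∈ range N, (NB n : ℝ) * x ^ n := sum_nonneg fun n _ => by positivity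
    -- the convolution
    have h1 : ∑ n ∈ range N, (NB (n + 1) : ℝ) * x ^ (n + 1) ≤
        x * ((∑ n ∈ range N, (CB n : ℝ) * x ^ n) * ∑ n ∈ range N, (NB n : ℝ) * x ^ n) := by
      have h2 : ∀ n, (NB (n + 1) : ℝ) * x ^ (n + 1) =
          x * ∑ ij ∈ antidiagonal n, ((CB ij.1 : ℝ) * x ^ ij.1) * ((NB ij.2 : ℝ) * x ^ ij.2) := by
        intro n
        rw [NB_rec]
        push_cast
        rw [sum_mul, mul_sum]
        refine sum_congr rfl fun ij hij => ?_
        rw [HasAntidiagonal.mem_antidiagonal] at hij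
        rw [← hij, pow_succ, pow_add]
        ring
      rw [sum_congr rfl fun n _ => h2 n, ← mul_sum]
      apply mul_le_mul_of_nonneg_left _ hx
      rw [sum_mul_sum, ← sum_product']
      rw [sum_sigma' (range N) (fun n => HasAntidiagonal.antidiagonal n)
        (fun _ ij => ((CB ij.1 : ℝ) * x ^ ij.1) * ((NB ij.2 : ℝ) * x ^ ij.2))]
      have h3 : ∑ p ∈ (range N).sigma (fun n => HasAntidiagonal.antidiagonal n),
          ((CB p.2.1 : ℝ) * x ^ p.2.1) * ((NB p.2.2 : ℝ) * x ^ p.2.2) =
          ∑ q ∈ ((range N).sigma (fun n => HasAntidiagonal.antidiagonal n)).image (fun p => p.2),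
          ((CB q.1 : ℝ) * x ^ q.1) * ((NB q.2 : ℝ) * x ^ q.2) := by
        rw [sum_image]
        rintro ⟨n, i, j⟩ h ⟨n', i', j'⟩ h' e
        simp only [coe_sigma, Set.mem_sigma_iff, mem_coe, mem_range, HasAntidiagonal.mem_antidiagonal] at h h'
        simp only [Prod.mk.injEq] at e
        obtain ⟨rfl, rfl⟩ := e
        obtain rfl : n = n' := by omega
        rfl
      rw [h3]
      apply sum_le_sum_of_subset_of_nonneg
      · intro q hq
        simp only [mem_image, mem_sigma, mem_range, HasAntidiagonal.mem_antidiagonal] at hq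
        obtain ⟨⟨n, i, j⟩, ⟨h4, h5⟩, rfl⟩ := hq
        simp only at h4 h5
        simp only [mem_product, mem_range]
        omega
      · intro q _ _
        positivity
    have h4 : ∑ n ∈ range N, (CB n : ℝ) * x ^ n ≤ x + (∑ n ∈ range N, (NB n : ℝ) * x ^ n) - 1 ∨ N = 0 := by
      rcases N with _ | _ | N
      · exact Or.inr rfl
      · left
        simp [CB_zero, NB_zero, hx]
      · left
        rw [sum_range_succ' (fun n => (CB n : ℝ) * x ^ n), sum_range_succ' (fun n => (NB n : ℝ) * x ^ n),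
          sum_range_succ' (fun n => (CB (n + 1) : ℝ) * x ^ (n + 1)),
          sum_range_succ' (fun n => (NB (n + 1) : ℝ) * x ^ (n + 1))]
        have h5 : ∑ n ∈ range N, (CB (n + 1 + 1) : ℝ) * x ^ (n + 1 + 1) =
            ∑ n ∈ range N, (NB (n + 1 + 1) : ℝ) * x ^ (n + 1 + 1) :=
          sum_congr rfl fun n _ => by rw [CB_ge (by omega)]
        rw [h5, CB_zero, NB_zero, zero_add, CB_one, NB_one]
        simp
        linarith
    rcases h4 with h4 | rfl
    · have h5 : (∑ n ∈ range N, (CB n : ℝ) * x ^ n) * ∑ n ∈ range N, (NB n : ℝ) * x ^ n ≤ (x + C - 1) * C := by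
        apply mul_le_mul
        · linarith
        · exact ih
        · exact hnn
        · linarith
      have h6 := mul_le_mul_of_nonneg_left h5 hx
      linarith
    · simp
      exact hC1

open scoped goldenRatio in
/-- **the bound**: `NB n <= phi^(2n+1)` -/
theorem NB_le (n : ℕ) : (NB n : ℝ) ≤ Real.goldenRatio ^ (2 * n + 1) := by
  obtain ⟨p, hp⟩ : ∃ p, p = Real.goldenRatio := ⟨_, rfl⟩
  have hp0 : 0 < p := by rw [hp]; exact Real.goldenRatio_pos
  have hp1 : 1 < p := by rw [hp]; exact Real.one_lt_goldenRatio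
  have hp2 : p ^ 2 = p + 1 := by rw [hp]; exact Real.goldenRatio_sq
  rw [← hp]
  -- `x = phi^(-2)`
  obtain ⟨x, hx⟩ : ∃ x, x = (p ^ 2)⁻¹ := ⟨_, rfl⟩
  have hx0 : 0 < x := by rw [hx]; positivity
  have hxp : x * p ^ 2 = 1 := by rw [hx]; exact inv_mul_cancel₀ (by positivity)
  have hC : 1 + x * ((x + p - 1) * p) ≤ p := by
    -- multiply with `p ^ 4`
    have h1 : p ^ 4 * (1 + x * ((x + p - 1) * p)) = p ^ 4 + (x * p ^ 2) * ((x * p ^ 2) * p + (p - 1) * p ^ 3) := by
      ring
    have h2 : p ^ 4 * (1 + x * ((x + p - 1) * p)) = p ^ 4 * p := by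
      rw [h1, hxp]
      have e3 : p ^ 3 = 2 * p + 1 := by
        have : p ^ 3 = p * p ^ 2 := by ring
        rw [this, hp2]
        linear_combination hp2
      have e4 : p ^ 4 = 3 * p + 2 := by
        have : p ^ 4 = p * p ^ 3 := by ring
        rw [this, e3]
        linear_combination 2 * hp2
      rw [e3, e4]
      linear_combination (-1) * hp2
    have h3 : (0 : ℝ) < p ^ 4 := by positivity
    exact le_of_eq (mul_left_cancel₀ h3.ne' h2)
  have h1 := partial_le x p hx0.le hp1.le hC (n + 1)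
  have h2 : (NB n : ℝ) * x ^ n ≤ ∑ m ∈ range (n + 1), (NB m : ℝ) * x ^ m :=
    single_le_sum (f := fun m => (NB m : ℝ) * x ^ m) (fun m _ => by positivity) (mem_range.2 (by omega))
  have h3 : (NB n : ℝ) * x ^ n ≤ p := h2.trans h1
  have h4 : x ^ n * (p ^ 2) ^ n = 1 := by rw [← mul_pow, hxp, one_pow]
  calc (NB n : ℝ) = (NB n : ℝ) * x ^ n * (p ^ 2) ^ n := by rw [mul_assoc, h4, mul_one]
    _ ≤ p * (p ^ 2) ^ n := mul_le_mul_of_nonneg_right h3 (by positivity)
    _ = p ^ (2 * n + 1) := by rw [← pow_mul, pow_succ]; ring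

/-! ### The words and the T-cycles without a part 1 -/

theorem card_X (k : ℕ) : Nat.card {w : X k // (OddHC.cont w.1).count 1 = 0} = NB k := by
  classical
  rw [Nat.card_eq_fintype_card, Fintype.card_subtype]
  unfold NB
  rw [← sum_filter, sum_const, smul_eq_mul, mul_one]
  refine Finset.card_bij (fun w _ => w.1) ?_ ?_ ?_
  · intro w hw
    rw [mem_filter] at hw ⊢
    exact ⟨w.2, hw.2⟩
  · intro w _ w' _ h
    exact Subtype.ext h
  · intro t ht
    rw [mem_filter] at ht
    exact ⟨⟨t, ht.1⟩, by rw [mem_filter]; exact ⟨mem_univ _, ht.2⟩, rfl⟩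

/-- the number of the T-cycles without a part 1 -/
theorem card_cyc (k : ℕ) : Nat.card {c : Cyc k // (contc c).count 1 = 0} ≤ NB k := by
  rw [← card_X]
  have hs : Function.Surjective (fun w : {w : X k // (OddHC.cont w.1).count 1 = 0} =>
      (⟨cyc w.1, w.2⟩ : {c : Cyc k // (contc c).count 1 = 0})) := by
    rintro ⟨c, hc⟩
    obtain ⟨w, rfl⟩ := Quotient.exists_rep c
    exact ⟨⟨w, hc⟩, rfl⟩
  exact Nat.card_le_card_of_surjective _ hs

end Cnt2

end Pool.OddHC
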