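import Pool.Agent.Work.MP_8f87b2_h2.Cnt
import Mathlib.Data.Nat.Fib.Basic

/-!
# The number of the words without a part 1: Fibonacci bound (helper2)

All runs of a word without a part 1 have length at least 2, so the number of these words of size `n` is at most the square of the
number `fib (n - 1)` of the compositions of `n` into parts `>= 2`. `card_RD`: there are at most `1 + fib (k - 1) * fib k`
T-cycles `U` (of any size `j`) with `j + pkc U <= k`.
-/

set_option autoImplicit false

namespace Pool.OddHC

open Finset BinaryTree

namespace Cnt2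

/-- compositions of `n` into parts `>= 2` -/
def CF : ℕ → Finset (List ℕ)
  | 0 => {[]}
  | 1 => ∅
  | n + 2 => (CF (n + 1)).image (fun l => (l.headD 0 + 1) :: l.tail) ∪ (CF n).image (fun l => 2 :: l)

/-- their number -/
def fc : ℕ → ℕ
  | 0 => 1
  | n + 1 => Nat.fib n

theorem fc_rec (n : ℕ) : fc (n + 2) = fc (n + 1) + fc n := by
  cases n with
  | zero => rfl
  | succ n =>
    change Nat.fib (n + 2) = Nat.fib (n + 1) + Nat.fib n
    rw [Nat.fib_add_two, add_comm]

theorem card_CF : ∀ n, (CF n).card ≤ fc n
  | 0 => le_rfl
  | 1 => le_rfl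
  | n + 2 => by
    rw [fc_rec]
    unfold CF
    exact (card_union_le _ _).trans (add_le_add (card_image_le.trans (card_CF (n + 1)))
      (card_image_le.trans (card_CF n)))

theorem mem_CF : ∀ (n : ℕ) (l : List ℕ), (∀ x ∈ l, 2 ≤ x) → l.sum = n → l ∈ CF n := by
  intro n
  induction n using Nat.strong_induction_on with
  | _ n ih =>
    intro l hl hs
    cases l with
    | nil =>
      simp at hs
      subst hs
      simp [CF]
    | cons x l =>
      have hx := hl x (by simp)
      rw [List.sum_cons] at hs
      obtain ⟨m, rfl⟩ : ∃ m, n = m + 2 := ⟨n - 2, by omega⟩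
      unfold CF
      rw [mem_union, mem_image, mem_image]
      rcases Nat.lt_or_ge 2 x with h | h
      · left
        refine ⟨(x - 1) :: l, ih (m + 1) (by omega) _ ?_ ?_, ?_⟩
        · intro y hy
          rcases List.mem_cons.1 hy with rfl | hy
          · omega
          · exact hl y (by simp [hy])
        · rw [List.sum_cons]
          omega
        · change (x - 1 + 1) :: l = x :: l
          congr 1
          omega
      · right
        refine ⟨l, ih m (by omega) _ (fun y hy => hl y (by simp [hy])) (by omega), ?_⟩
        congr 1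
        omega

/-- the word with the runs `A` (up) and `B` (down) -/
def dec : List ℕ → List ℕ → List Bool
  | a :: A, b :: B => List.replicate a true ++ (List.replicate b false ++ dec A B)
  | _, _ => []

theorem dec_append : ∀ (A B : List ℕ), A.length = B.length → ∀ A' B' : List ℕ,
    dec (A ++ A') (B ++ B') = dec A B ++ dec A' B'
  | [], [], _, A', B' => rfl
  | a :: A, b :: B, h, A', B' => by
    have h' : A.length = B.length := by simpa using h
    change List.replicate a true ++ (List.replicate b false ++ dec (A ++ A') (B ++ B')) =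
      (List.replicate a true ++ (List.replicate b false ++ dec A B)) ++ dec A' B'
    rw [dec_append A B h' A' B']
    simp
  | [], b :: B, h, _, _ => by simp at h
  | a :: A, [], h, _, _ => by simp at h

theorem dec_up (a : ℕ) (A : List ℕ) (b : ℕ) (B : List ℕ) : dec ((a + 1) :: A) (b :: B) = true :: dec (a :: A) (b :: B) := rfl

theorem dec_down (a b : ℕ) : dec [a] [b + 1] = dec [a] [b] ++ [false] := by
  change List.replicate a true ++ (List.replicate (b + 1) false ++ []) =
    (List.replicate a true ++ (List.replicate b false ++ [])) ++ [false]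
  rw [List.replicate_succ']
  simp

/-- the runs of a word without a part 1 -/
theorem runs : ∀ t : BinaryTree Unit, (OddHC.cont t).count 1 = 0 → ∃ A B : List ℕ, A.length = B.length ∧
    (∀ x ∈ A, 2 ≤ x) ∧ (∀ x ∈ B, 2 ≤ x) ∧ A.sum = t.numNodes ∧ B.sum = t.numNodes ∧ wd t = dec A B := by
  intro t
  induction t with
  | nil => intro _; exact ⟨[], [], rfl, by simp, by simp, rfl, rfl, rfl⟩
  | node u X Y ihX ihY =>
    intro h
    have h' : (raise (OddHC.cont X) + OddHC.cont Y).count 1 = 0 := h
    rw [Multiset.count_add] at h'
    obtain ⟨AY, BY, y1, y2, y3, y4, y5, y6⟩ := ihY (by omega)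
    have hn : (BinaryTree.node u X Y).numNodes = X.numNodes + Y.numNodes + 1 := rfl
    have hw : wd (BinaryTree.node u X Y) = true :: (wd X ++ false :: wd Y) := rfl
    by_cases hX : X = .nil
    · subst hX
      have : raise (OddHC.cont (.nil : BinaryTree Unit)) = {1} := raise_zero
      rw [this] at h'
      simp at h'
    by_cases hX1 : X = .nil △ .nil
    · subst hX1
      refine ⟨2 :: AY, 2 :: BY, by simp [y1], ?_, ?_, ?_, ?_, ?_⟩
      · intro x hx
        rcases List.mem_cons.1 hx with rfl | hx
        · exact le_rfl
        · exact y2 x hx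
      · intro x hx
        rcases List.mem_cons.1 hx with rfl | hx
        · exact le_rfl
        · exact y3 x hx
      · rw [List.sum_cons, y4, hn]
        change 2 + Y.numNodes = 1 + Y.numNodes + 1
        ring
      · rw [List.sum_cons, y5, hn]
        change 2 + Y.numNodes = 1 + Y.numNodes + 1
        ring
      · rw [hw, y6]
        rfl
    · have hsum : 2 ≤ (OddHC.cont X).sum := by
        rw [cont_sum]
        cases X with
        | nil => exact absurd rfl hX
        | node u' P Q =>
          have hn' : (BinaryTree.node u' P Q).numNodes = P.numNodes + Q.numNodes + 1 := rfl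
          rw [hn']
          cases P with
          | nil =>
            cases Q with
            | nil => exact absurd rfl hX1
            | node _ C D =>
              change 2 ≤ 0 + (C.numNodes + D.numNodes + 1) + 1
              omega
          | node _ C D =>
            change 2 ≤ (C.numNodes + D.numNodes + 1) + _ + 1
            omega
      have hX2 := raise_one (cont_pos X) hsum (by omega)
      obtain ⟨AX, BX, x1, x2, x3, x4, x5, x6⟩ := ihX hX2
      rw [cont_sum] at hsum
      -- the first run and the last run
      obtain ⟨a, A', rfl⟩ : ∃ a A', AX = a :: A' := by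
        cases AX with
        | nil => simp at x4; omega
        | cons a A' => exact ⟨a, A', rfl⟩
      obtain ⟨B', b, rfl⟩ : ∃ B' b, BX = B' ++ [b] := by
        rcases List.eq_nil_or_concat BX with h5 | ⟨l, z, h5⟩
        · rw [h5] at x5
          simp at x5
          omega
        · exact ⟨l, z, by rw [h5, List.concat_eq_append]⟩
      -- the up runs without the last one
      obtain ⟨A1, a1, e1⟩ : ∃ A1 a1, a :: A' = A1 ++ [a1] := by
        rcases List.eq_nil_or_concat (a :: A') with h5 | ⟨l, z, h5⟩
        · simp at h5
        · exact ⟨l, z, by rw [h5, List.concat_eq_append]⟩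
      have l1 : A1.length = B'.length := by
        have := x1
        rw [e1] at this
        simpa using this
      have k1 : wd X ++ [false] = dec (a :: A') (B' ++ [b + 1]) := by
        rw [x6, e1, dec_append _ _ l1, dec_append _ _ l1, dec_down]
        simp
      obtain ⟨c, C', e2⟩ : ∃ c C', B' ++ [b + 1] = c :: C' := by
        cases hc : B' ++ [b + 1] with
        | nil => simp at hc
        | cons c C' => exact ⟨c, C', rfl⟩
      have l2 : ((a + 1) :: A').length = (B' ++ [b + 1]).length := by
        have := x1
        simp at this ⊢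
        omega
      refine ⟨((a + 1) :: A') ++ AY, (B' ++ [b + 1]) ++ BY, ?_, ?_, ?_, ?_, ?_, ?_⟩
      · rw [List.length_append, List.length_append, l2, y1]
      · intro x hx
        rcases List.mem_append.1 hx with hx | hx
        · rcases List.mem_cons.1 hx with rfl | hx
          · have := x2 a (by simp)
            omega
          · exact x2 x (by simp [hx])
        · exact y2 x hx
      · intro x hx
        rcases List.mem_append.1 hx with hx | hx
        · rcases List.mem_append.1 hx with hx | hx
          · exact x3 x (by simp [hx])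
          · have := x3 b (by simp)
            simp at hx
            omega
        · exact y3 x hx
      · rw [List.sum_append, List.sum_cons, y4, hn]
        rw [List.sum_cons] at x4
        omega
      · rw [List.sum_append, List.sum_append, y5, hn]
        rw [List.sum_append] at x5
        simp at x5 ⊢
        omega
      · have k2 : wd X ++ false :: wd Y = (wd X ++ [false]) ++ wd Y := by simp
        rw [hw, k2, k1, dec_append _ _ l2, ← y6, e2, dec_up]
        simp

theorem NB_fib (n : ℕ) : NB n ≤ fc n * fc n := by
  classical
  have h : NB n = ((treesOfNumNodesEq n).filter fun t => (OddHC.cont t).count 1 = 0).card := by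
    unfold NB
    rw [← sum_filter, sum_const, smul_eq_mul, mul_one]
  rw [h]
  have hr : ∀ t : BinaryTree Unit, ∃ q : List ℕ × List ℕ, (OddHC.cont t).count 1 = 0 → (∀ x ∈ q.1, 2 ≤ x) ∧
      (∀ x ∈ q.2, 2 ≤ x) ∧ q.1.sum = t.numNodes ∧ q.2.sum = t.numNodes ∧ wd t = dec q.1 q.2 := by
    intro t
    by_cases h1 : (OddHC.cont t).count 1 = 0
    · obtain ⟨A, B, -, h2, h3, h4, h5, h6⟩ := runs t h1
      exact ⟨(A, B), fun _ => ⟨h2, h3, h4, h5, h6⟩⟩
    · exact ⟨([], []), fun h2 => absurd h2 h1⟩
  choose q hq using hr
  have h1 : ((treesOfNumNodesEq n).filter fun t => (OddHC.cont t).count 1 = 0).card ≤ (CF n ×ˢ CF n).card := by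
    apply Finset.card_le_card_of_injOn q
    · intro t ht
      rw [mem_coe, mem_filter, mem_treesOfNumNodesEq] at ht
      obtain ⟨h2, h3, h4, h5, -⟩ := hq t ht.2
      rw [mem_coe, mem_product]
      exact ⟨mem_CF n _ h2 (h4.trans ht.1), mem_CF n _ h3 (h5.trans ht.1)⟩
    · intro t ht t' ht' e
      rw [mem_coe, mem_filter] at ht ht'
      have h2 := (hq t ht.2).2.2.2.2
      have h3 := (hq t' ht'.2).2.2.2.2
      rw [e, ← h3] at h2
      exact wd_ext h2
  rw [card_product] at h1
  exact h1.trans (Nat.mul_le_mul (card_CF n) (card_CF n))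

theorem fib_sq_sum (k : ℕ) : ∑ n ∈ range (k + 1), Nat.fib n * Nat.fib n = Nat.fib k * Nat.fib (k + 1) := by
  induction k with
  | zero => rfl
  | succ k ih =>
    rw [sum_range_succ, ih, Nat.fib_add_two]
    ring

/-- the sum of the numbers -/
theorem sum_NB {k : ℕ} (hk : 1 ≤ k) : ∑ n ∈ range (k + 1), NB n ≤ 1 + Nat.fib (k - 1) * Nat.fib k := by
  obtain ⟨m, rfl⟩ : ∃ m, k = m + 1 := ⟨k - 1, by omega⟩
  rw [sum_range_succ', NB_zero, add_comm]
  apply Nat.add_le_add_left
  rw [Nat.add_sub_cancel, ← fib_sq_sum]
  exact sum_le_sum fun n _ => NB_fib (n + 1)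

/-! ### The reduced T-cycles -/

/-- the bare inflation of the chosen word of a reduced T-cycle -/
noncomputable def bw (d : RD) : BinaryTree Unit :=
  ins (Quotient.out d.2).1 (List.replicate (2 * (Quotient.out d.2).1.numNodes + 1) 0)

theorem bw_red (d : RD) : mkRD (red (bw d)).1 = d := by
  unfold bw
  rw [red_ins _ _ List.length_replicate, mkRD_eq]
  have : cyc (Quotient.out d.2) = d.2 := Quotient.out_eq _
  rw [this]

theorem bw_inj {d d' : RD} (h : bw d = bw d') : d = d' := by
  rw [← bw_red d, ← bw_red d', h]

theorem bw_one (d : RD) : (OddHC.cont (bw d)).count 1 = 0 := by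
  unfold bw
  rw [count_one_ins _ _ List.length_replicate, List.sum_replicate, smul_zero]

theorem bw_num (d : RD) : (bw d).numNodes = d.1 + pkc d.2 := by
  unfold bw
  rw [(ins_num _ _ List.length_replicate).1, List.sum_replicate, smul_zero, add_zero, X_num, ← pkc_cyc]
  congr 2
  exact Quotient.out_eq _

/-- **the number of the reduced T-cycles** -/
theorem card_RD {k : ℕ} (hk : 1 ≤ k) : Finite {d : RD // d.1 + pkc d.2 ≤ k} ∧
    Nat.card {d : RD // d.1 + pkc d.2 ≤ k} ≤ 1 + Nat.fib (k - 1) * Nat.fib k := by
  classical
  let S : Finset (BinaryTree Unit) := (range (k + 1)).biUnion fun n =>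
    (treesOfNumNodesEq n).filter fun t => (OddHC.cont t).count 1 = 0
  let φ : {d : RD // d.1 + pkc d.2 ≤ k} → S := fun d => ⟨bw d.1, by
    rw [mem_biUnion]
    refine ⟨d.1.1 + pkc d.1.2, mem_range.2 (by have := d.2; omega), ?_⟩
    rw [mem_filter, mem_treesOfNumNodesEq]
    exact ⟨bw_num d.1, bw_one d.1⟩⟩
  have hφ : Function.Injective φ := by
    intro d d' e
    apply Subtype.ext
    exact bw_inj (congrArg Subtype.val e)
  refine ⟨Finite.of_injective φ hφ, ?_⟩
  have h1 : Nat.card {d : RD // d.1 + pkc d.2 ≤ k} ≤ Nat.card S := Nat.card_le_card_of_injective φ hφ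
  have h2 : Nat.card S = S.card := by rw [Nat.card_eq_fintype_card, Fintype.card_coe]
  have h3 : S.card ≤ ∑ n ∈ range (k + 1), NB n := by
    refine card_biUnion_le.trans (sum_le_sum fun n _ => ?_)
    unfold NB
    rw [← sum_filter, sum_const, smul_eq_mul, mul_one]
  exact h1.trans (h2.le.trans (h3.trans (sum_NB hk)))

end Cnt2

end Pool.OddHC
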