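import Pool.Agent.Work.MP_8f87b2_h2.KHp
import Pool.Agent.Work.MP_8f87b2_fin.Blk2

/-!
# The words of the K links: fields `k0`, `k1`, `k2`, `kp`, `kn`, `k4` of `NodeEnv` for the shapes `KHp`
-/

set_option autoImplicit false

namespace Pool.OddHC

open Finset BinaryTree Multiset Pool.OddHop

variable {i j j2 k : ℕ}

/-- `n` more beads in the last gap -/
theorem ins_backs (u : X j) (f : ZMod (2 * j + 1) → ℕ) (n : ℕ) :
    ins u.1 (lf (fun x => f x + if x = -1 then n else 0)) = app (ins u.1 (lf f)) (lp n) := by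
  induction n with
  | zero =>
    have e : (fun x : ZMod (2 * j + 1) => f x + if x = -1 then 0 else 0) = f := by
      funext x
      simp
    rw [e]
    exact (app_nil' _).symm
  | succ n ih =>
    have e : (fun x : ZMod (2 * j + 1) => f x + if x = -1 then n + 1 else 0) =
        fun x => (fun x => f x + if x = -1 then n else 0) x + if x = -1 then 1 else 0 := by
      funext x
      by_cases h : x = -1
      · simp only [h, if_true]
        ring
      · simp [h]
    have e2 : lp (n + 1) = app (lp n) (.nil △ .nil) := by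
      unfold lp
      rw [lv_add n 1, lv_app n]
      rfl
    rw [e, ins_back, ih, app_assoc', e2]

theorem ins_zero_kh (u : X j) : ins u.1 (lf (fun _ : ZMod (2 * j + 1) => 0)) = inf u.1 := by
  rw [lf_zero]
  unfold inf
  rw [X_num]

/-- `n` beads in the last gap, list form -/
theorem ins_last_kh (t : BinaryTree Unit) (n : ℕ) :
    ins t (List.replicate (2 * t.numNodes) 0 ++ [n]) = app (inf t) (lp n) := by
  obtain ⟨u, hu⟩ : ∃ u : X t.numNodes, u.1 = t := ⟨⟨t, mem_treesOfNumNodesEq.2 rfl⟩, rfl⟩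
  have h1 := ins_backs u (fun _ => 0) n
  rw [ins_zero_kh, hu] at h1
  rw [← h1]
  congr 1
  have h4 := pile_lf (x := 2 * t.numNodes) (y := 0) (n := n) (j := t.numNodes) (by omega)
  rw [List.replicate_zero] at h4
  rw [h4]
  congr 1
  funext z
  have : ((2 * t.numNodes : ℕ) : ZMod (2 * t.numNodes + 1)) = -1 := by
    have h2 : ((2 * t.numNodes + 1 : ℕ) : ZMod (2 * t.numNodes + 1)) = 0 := ZMod.natCast_self _
    push_cast at h2 ⊢
    linear_combination h2
  rw [this]
  simp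

/-- one bead before a final tower -/
theorem ins_bead_pc (A : BinaryTree Unit) (q : ℕ) :
    ins (app A (pc (q + 1))) (List.replicate (2 * A.numNodes) 0 ++ 1 :: List.replicate (2 * (q + 1)) 0) =
      app (inf A) (.nil △ pc (q + 2)) := by
  have e : List.replicate (2 * A.numNodes) 0 ++ 1 :: List.replicate (2 * (q + 1)) 0 =
      (List.replicate (2 * A.numNodes) 0 ++ [1]) ++ List.replicate (2 * (q + 1)) 0 := by simp
  rw [e, ins_app _ _ _ _ (by simp), ins_last_kh, app_assoc']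
  have e2 : ins (pc (q + 1)) (0 :: List.replicate (2 * (q + 1)) 0) = pc (q + 2) := by
    rw [← inf_pc (b := q + 1) (by omega)]
    unfold inf
    rw [pc_num]
    rfl
  rw [e2]
  rfl

/-- one bead before the last closing bracket -/
theorem ins_bead_in (u1 B : BinaryTree Unit) (hB : B ≠ .nil) :
    ins (app u1 (B △ .nil)) (List.replicate (2 * u1.numNodes + 1 + 2 * B.numNodes) 0 ++ [1, 0]) =
      app (inf u1) (app (inf B) (lp 1) △ .nil) := by
  have e : List.replicate (2 * u1.numNodes + 1 + 2 * B.numNodes) 0 ++ [1, 0] =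
      List.replicate (2 * u1.numNodes + 1) 0 ++ (List.replicate (2 * B.numNodes) 0 ++ [1, 0]) := by
    rw [← List.append_assoc, List.replicate_append_replicate]
  rw [e, ins_app _ _ _ _ (by simp)]
  congr 1
  change lv ((0 :: (List.replicate (2 * B.numNodes) 0 ++ [1, 0])).headD 0)
    (ins B (bump B ((0 :: (List.replicate (2 * B.numNodes) 0 ++ [1, 0])).tail.take (2 * B.numNodes + 1))) △
      ins .nil ((0 :: (List.replicate (2 * B.numNodes) 0 ++ [1, 0])).drop (2 * B.numNodes + 2))) = _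
  have e3 : (0 :: (List.replicate (2 * B.numNodes) 0 ++ [1, 0])).tail.take (2 * B.numNodes + 1) =
      List.replicate (2 * B.numNodes) 0 ++ [1] := by
    rw [List.tail_cons, List.take_append]
    simp
  have e4 : (0 :: (List.replicate (2 * B.numNodes) 0 ++ [1, 0])).drop (2 * B.numNodes + 2) = [0] := by
    rw [List.drop_succ_cons, List.drop_append]
    simp
  have e5 : bump B (List.replicate (2 * B.numNodes) 0 ++ [1]) = List.replicate (2 * B.numNodes) 0 ++ [1] := by
    cases B with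
    | nil => exact absurd rfl hB
    | node _ _ _ => rfl
  rw [e3, e4, e5, ins_last_kh]
  rfl

theorem hv_inf2 (t : BinaryTree Unit) (h : ∀ x ∈ cont t, 1 ≤ x) : H1.hv (inf (inf t)) := by
  apply H1.hv_of_cont
  intro x hx
  rw [cont_inf, cont_inf, Multiset.map_map, Multiset.mem_map] at hx
  obtain ⟨y, hy, rfl⟩ := hx
  have := h y hy
  change 3 ≤ y + 1 + 1
  omega

theorem hv_inf2' (t : BinaryTree Unit) : H1.hv (inf (inf t)) := hv_inf2 t (cont_pos t)

/-- a phase with the smallest soliton at the end -/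
theorem exists_endV {V : Cyc j2} (h2 : 2 ≤ pkc V) : ∃ (v : X j2) (R : BinaryTree Unit) (q : ℕ), cyc v = V ∧
    v.1 = app R (pc (q + 1)) ∧ R ≠ .nil ∧ ∀ x ∈ cont v.1, q + 1 ≤ x := by
  obtain ⟨z, rfl⟩ : ∃ z : X j2, cyc z = V := Quotient.exists_rep V
  rw [pkc_cyc] at h2
  have hne : cont z.1 ≠ 0 := by
    intro h
    rw [← cont_card, h, Multiset.card_zero] at h2
    omega
  obtain ⟨c, hc, hmin⟩ := exists_min hne
  have hc1 := cont_pos z.1 c hc
  obtain ⟨c, rfl⟩ : ∃ c', c = c' + 1 := ⟨c - 1, by omega⟩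
  obtain ⟨w, R, hs, hw⟩ := exists_end c z hc hmin
  refine ⟨w, R, c, cyc_eq.2 hs.symm, hw, ?_, ?_⟩
  · rintro rfl
    have h3 := congrArg Multiset.card (cont_same hs)
    rw [hw, cont_card] at h3
    change pkn z.1 = Multiset.card (cont (pc (c + 1))) at h3
    rw [cont_pc, Multiset.card_singleton] at h3
    omega
  · intro x hx
    rw [← cont_same hs] at hx
    exact hmin x hx

theorem ins_zero_m (v : X j2) :
    ins v.1 (lf fun z : ZMod (2 * j2 + 1) => if z = -1 then 0 else 0) = inf v.1 := by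
  rw [← ins_zero_kh]
  congr 2
  funext z
  simp

theorem pkc_of {V : Cyc j2} {v : X j2} (h : cyc v = V) : pkn v.1 = pkc V := by rw [← h, pkc_cyc]

theorem inf_num_kh (v : X j2) : (inf v.1).numNodes = j2 + pkn v.1 := by
  have h := (ins_num v.1 (List.replicate (2 * v.1.numNodes + 1) 0) (by simp)).1
  unfold inf
  rw [h, X_num]
  simp

theorem neg_one_val (J : ℕ) (z : ZMod (2 * J + 1)) : z.val = 2 * J ↔ z = -1 := by
  rw [val_eq_iff z (show 2 * J < 2 * J + 1 by omega)]
  have : ((2 * J : ℕ) : ZMod (2 * J + 1)) = -1 := by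
    have h2 : ((2 * J + 1 : ℕ) : ZMod (2 * J + 1)) = 0 := ZMod.natCast_self _
    push_cast at h2 ⊢
    linear_combination h2
  rw [this]

section
variable {V : Cyc j2}

/-- **K0** -/
theorem kh0 (h2 : 2 ≤ pkc V) : KPh V KHp 0 0 0 0 0 := by
  obtain ⟨v, R, q, hv, hR, hR0, hmin⟩ := exists_endV h2
  refine ⟨v, hv, ?_⟩
  have hp := pkc_of hv
  have e : (ev 0 0 0 0 : ZMod (2 * (j2 + pkc V + 0) + 1) → ℕ) = fun _ => 0 := by
    funext z
    unfold ev
    simp
  rw [ins_zero_m, e, lf_zero]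
  have e2 : ins (inf v.1) (List.replicate (2 * (j2 + pkc V + 0) + 1) 0) = inf (inf v.1) := by
    change _ = ins (inf v.1) (List.replicate (2 * (inf v.1).numNodes + 1) 0)
    rw [inf_num_kh, hp]
    rfl
  rw [e2]
  left
  refine ⟨inf (inf R), q, ?_, hv_inf2' R, inf_ne_nil (inf_ne_nil hR0), ?_⟩
  · rw [hR, inf_app, inf_app, inf_pc (by omega), inf_pc (by omega)]
  · intro x hx
    rw [cont_inf, cont_inf, Multiset.map_map, Multiset.mem_map] at hx
    obtain ⟨y, hy, rfl⟩ := hx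
    have := hmin y hy
    change q + 3 ≤ y + 1 + 1
    omega

/-- the sizes of a phase with the smallest soliton at the end -/
theorem end_size {v : X j2} {R : BinaryTree Unit} {q : ℕ} (hR : v.1 = app R (pc (q + 1)))
    (hmin : ∀ x ∈ cont v.1, q + 1 ≤ x) (h2 : 2 ≤ pkn v.1) :
    (inf R).numNodes + (q + 2) = j2 + pkn v.1 ∧ q + 1 ≤ R.numNodes := by
  have h1 := inf_num_kh v
  rw [hR, inf_app, inf_pc (by omega), num_app, pc_num, ← hR] at h1
  refine ⟨h1, ?_⟩
  have h3 : cont v.1 = cont R + {q + 1} := by rw [hR, cont_app, cont_pc]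
  have h4 : cont R ≠ 0 := by
    intro h
    rw [h, zero_add] at h3
    rw [← cont_card, h3, Multiset.card_singleton] at h2
    omega
  obtain ⟨y, hy⟩ := Multiset.exists_mem_of_ne_zero h4
  have h5 := hmin y (by rw [h3]; exact Multiset.mem_add.2 (Or.inl hy))
  rw [← cont_sum]
  exact le_trans h5 (Multiset.single_le_sum (by simp) y hy)

/-- the word with one bead before the last tower -/
theorem k1_word {v : X j2} {R : BinaryTree Unit} {q J : ℕ} (hR : v.1 = app R (pc (q + 1)))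
    (hJ : (inf R).numNodes + (q + 2) = J) :
    ins (inf v.1) (lf (ev (2 * (inf R).numNodes) 1 0 0 : ZMod (2 * J + 1) → ℕ)) =
      app (inf (inf R)) (.nil △ pc (q + 3)) := by
  have e : (ev (2 * (inf R).numNodes) 1 0 0 : ZMod (2 * J + 1) → ℕ) =
      fun z => if z = ((2 * (inf R).numNodes : ℕ) : ZMod (2 * J + 1)) then 1 else 0 := by
    funext z
    unfold ev
    simp only [val_eq_iff z (show 2 * (inf R).numNodes < 2 * J + 1 by omega)]
    simp
  rw [e, ← pile_lf (x := 2 * (inf R).numNodes) (y := 2 * (q + 1 + 1)) (by omega), hR, inf_app, inf_pc (by omega)]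
  exact ins_bead_pc (inf R) (q + 1)

/-- **K1** -/
theorem kh1 (h2 : 2 ≤ pkc V) : ∃ x, x < 2 * (j2 + pkc V) + 1 ∧ KPh V KHp 0 x 1 0 0 := by
  obtain ⟨v, R, q, hv, hR, hR0, hmin⟩ := exists_endV h2
  have hp := pkc_of hv
  obtain ⟨h3, h4⟩ := end_size hR hmin (by rw [hp]; exact h2)
  refine ⟨2 * (inf R).numNodes, by omega, v, hv, ?_⟩
  rw [ins_zero_m, k1_word hR (by omega)]
  right; left
  exact ⟨inf (inf R), q, rfl, hv_inf2' R, inf_ne_nil (inf_ne_nil hR0)⟩

/-- **K2'** -/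
theorem kh2 (h2 : 2 ≤ pkc V) : ∃ x l, 1 ≤ l ∧ 2 * l ≤ j2 + pkc V + 1 ∧ x + 2 * l = 2 * (j2 + pkc V) ∧
    KPh V KHp 0 x 1 (2 * (j2 + pkc V)) 1 := by
  obtain ⟨v, R, q, hv, hR, hR0, hmin⟩ := exists_endV h2
  have hp := pkc_of hv
  obtain ⟨h3, h4⟩ := end_size hR hmin (by rw [hp]; exact h2)
  have hj : R.numNodes + (q + 1) = j2 := by
    have := X_num v
    rw [hR, num_app, pc_num] at this
    exact this
  refine ⟨2 * (inf R).numNodes, q + 2, by omega, by omega, by omega, v, hv, ?_⟩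
  obtain ⟨u, hu⟩ : ∃ u : X (j2 + pkc V + 0), u.1 = inf v.1 :=
    ⟨⟨inf v.1, mem_treesOfNumNodesEq.2 (by rw [inf_num_kh, hp]; rfl)⟩, rfl⟩
  have e : (ev (2 * (inf R).numNodes) 1 (2 * (j2 + pkc V)) 1 : ZMod (2 * (j2 + pkc V + 0) + 1) → ℕ) =
      fun z => (ev (2 * (inf R).numNodes) 1 0 0 : ZMod (2 * (j2 + pkc V + 0) + 1) → ℕ) z +
        if z = -1 then 1 else 0 := by
    funext z
    unfold ev
    have h5 : z.val = 2 * (j2 + pkc V) ↔ z = -1 := neg_one_val (j2 + pkc V + 0) z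
    simp only [h5]
    simp
  rw [ins_zero_m, e, ← hu, ins_back, hu, k1_word hR (by omega)]
  right; right; right; left
  refine ⟨inf (inf R), q, ?_, hv_inf2' R, inf_ne_nil (inf_ne_nil hR0)⟩
  rw [app_assoc']
  rfl

/-- **K2** -/
theorem khp (h2 : 2 ≤ pkc V) (m : ℕ) (hm : 2 ≤ m) : ∃ x b y c, x < 2 * (j2 + pkc V) + 1 ∧ y < 2 * (j2 + pkc V) + 1 ∧
    b + c = m ∧ KPh V KHp 0 x b y c := by
  obtain ⟨v, R, q, hv, hR, hR0, hmin⟩ := exists_endV h2
  have hp := pkc_of hv
  refine ⟨2 * (j2 + pkc V), m, 0, 0, by omega, by omega, rfl, v, hv, ?_⟩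
  obtain ⟨u, hu⟩ : ∃ u : X (j2 + pkc V + 0), u.1 = inf v.1 :=
    ⟨⟨inf v.1, mem_treesOfNumNodesEq.2 (by rw [inf_num_kh, hp]; rfl)⟩, rfl⟩
  have e : (ev (2 * (j2 + pkc V)) m 0 0 : ZMod (2 * (j2 + pkc V + 0) + 1) → ℕ) =
      fun z => (fun _ => 0) z + if z = -1 then m else 0 := by
    funext z
    unfold ev
    have h5 : z.val = 2 * (j2 + pkc V) ↔ z = -1 := neg_one_val (j2 + pkc V + 0) z
    simp only [h5]
    simp
  rw [ins_zero_m, e, ← hu, ins_backs, ins_zero_kh, hu]
  right; right; left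
  obtain ⟨m, rfl⟩ : ∃ m', m = m' + 2 := ⟨m - 2, by omega⟩
  exact ⟨inf (inf v.1), m, rfl, hv_inf2' v.1, inf_ne_nil (inf_ne_nil (by rw [hR]; exact fun h => hR0 (H1.app_eq_nil.1 h).1))⟩

/-- **K3** over every phase -/
theorem khn (h2 : 2 ≤ pkc V) (m : ℕ) (hm : 2 ≤ m) : KNr V KHp m := by
  intro v hv
  have hp := pkc_of hv
  obtain ⟨u, hu⟩ : ∃ u : X (j2 + pkc V + 0), u.1 = inf v.1 :=
    ⟨⟨inf v.1, mem_treesOfNumNodesEq.2 (by rw [inf_num_kh, hp]; rfl)⟩, rfl⟩
  have hn := inf_num_kh v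
  -- the last component of `v`
  obtain ⟨v1, A0, hA⟩ : ∃ v1 A0 : BinaryTree Unit, v.1 = app v1 (A0 △ .nil) := by
    have hv0 : v.1 ≠ .nil := by
      intro h
      rw [← hp, h] at h2
      change 2 ≤ 0 at h2
      omega
    generalize v.1 = t at hv0
    clear hn hu hp
    induction t with
    | nil => exact absurd rfl hv0
    | node _ A B _ ihB =>
      by_cases hB : B = .nil
      · subst hB
        exact ⟨.nil, A, rfl⟩
      · obtain ⟨w1, A0, h⟩ := ihB hB
        exact ⟨A △ w1, A0, by rw [h]; rfl⟩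
  have hI : inf v.1 = app (inf v1) (inf1 A0 △ .nil) := by
    rw [hA, inf_app, inf_node, inf_nil]
  have hnum : (inf v1).numNodes + (inf1 A0).numNodes + 1 = j2 + pkc V := by
    rw [← hp, ← hn, hI, num_app]
    change _ = _ + ((inf1 A0).numNodes + 0 + 1)
    ring
  obtain ⟨m, rfl⟩ : ∃ m', m = m' + 2 := ⟨m - 2, by omega⟩
  have hJ : 1 ≤ j2 + pkc V := by omega
  have e : (ev (2 * (j2 + pkc V) - 1) 1 (2 * (j2 + pkc V)) (m + 2 - 1) : ZMod (2 * (j2 + pkc V + 0) + 1) → ℕ) =
      fun z => (ev (2 * (j2 + pkc V) - 1) 1 0 0 : ZMod (2 * (j2 + pkc V + 0) + 1) → ℕ) z +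
        if z = -1 then m + 1 else 0 := by
    funext z
    unfold ev
    have h5 : z.val = 2 * (j2 + pkc V) ↔ z = -1 := neg_one_val (j2 + pkc V + 0) z
    simp only [h5]
    simp
  have e1 : (ev (2 * (j2 + pkc V) - 1) 1 0 0 : ZMod (2 * (j2 + pkc V + 0) + 1) → ℕ) =
      fun z => if z = ((2 * (j2 + pkc V) - 1 : ℕ) : ZMod (2 * (j2 + pkc V + 0) + 1)) then 1 else 0 := by
    funext z
    unfold ev
    simp only [val_eq_iff z (show 2 * (j2 + pkc V) - 1 < 2 * (j2 + pkc V + 0) + 1 by omega)]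
    simp
  have e2 : lf (ev (2 * (j2 + pkc V) - 1) 1 0 0 : ZMod (2 * (j2 + pkc V + 0) + 1) → ℕ) =
      List.replicate (2 * (inf v1).numNodes + 1 + 2 * (inf1 A0).numNodes) 0 ++ [1, 0] := by
    rw [e1, ← pile_lf (x := 2 * (j2 + pkc V) - 1) (y := 1) (by omega)]
    have : 2 * (j2 + pkc V) - 1 = 2 * (inf v1).numNodes + 1 + 2 * (inf1 A0).numNodes := by omega
    rw [this]
    rfl
  rw [ins_zero_m, e, ← hu, ins_backs, hu, e2, hI, ins_bead_in _ _ (inf1_ne_nil A0)]
  right; right; right; right; left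
  refine ⟨inf (inf v1), inf (inf1 A0), m, ?_, hv_inf2' v1, ?_⟩
  · rw [app_assoc']
    rfl
  · by_cases hA0 : A0 = .nil
    · left
      subst hA0
      refine ⟨?_, rfl⟩
      apply inf_ne_nil
      apply inf_ne_nil
      rintro rfl
      rw [← hp, hA] at h2
      change 2 ≤ 1 + 0 + 0 at h2
      omega
    · right
      rw [inf1_eq hA0]
      exact ⟨hv_inf2' A0, inf_ne_nil (inf_ne_nil hA0)⟩

/-- **K4** -/
theorem kh4 (h2 : 2 ≤ pkc V) (a : ℕ) (ha : 1 ≤ a) : KPh V KHp a 0 0 0 0 := by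
  obtain ⟨v, R, q, hv, hR, hR0, hmin⟩ := exists_endV h2
  have hp := pkc_of hv
  refine ⟨v, hv, ?_⟩
  obtain ⟨a, rfl⟩ : ∃ a', a = a' + 1 := ⟨a - 1, by omega⟩
  have e0 : (fun z : ZMod (2 * j2 + 1) => if z = -1 then a + 1 else 0) =
      fun z => (fun _ => 0) z + if z = -1 then a + 1 else 0 := by
    funext z
    simp
  have e1 : ins v.1 (lf fun z : ZMod (2 * j2 + 1) => if z = -1 then a + 1 else 0) = app (inf v.1) (lp (a + 1)) := by
    rw [e0, ins_backs, ins_zero_kh]
  have e : (ev 0 0 0 0 : ZMod (2 * (j2 + pkc V + (a + 1)) + 1) → ℕ) = fun _ => 0 := by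
    funext z
    unfold ev
    simp
  have hn : (app (inf v.1) (lp (a + 1))).numNodes = j2 + pkc V + (a + 1) := by
    rw [num_app, inf_num_kh, hp, lp_num]
  rw [e1, e, lf_zero]
  have e2 : ins (app (inf v.1) (lp (a + 1))) (List.replicate (2 * (j2 + pkc V + (a + 1)) + 1) 0) =
      inf (app (inf v.1) (lp (a + 1))) := by
    change _ = ins _ (List.replicate (2 * (app (inf v.1) (lp (a + 1))).numNodes + 1) 0)
    rw [hn]
  rw [e2]
  right; right; right; right; right
  refine ⟨inf (inf v.1), a, ?_, hv_inf2' v.1, inf_ne_nil (inf_ne_nil (by rw [hR]; exact fun h => hR0 (H1.app_eq_nil.1 h).1))⟩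
  rw [inf_app]
  unfold lp
  rw [inf_lv, inf_nil]

end

end Pool.OddHC
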