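import Pool.Agent.Work.MP_8f87b2_h18.NSx
import Pool.Agent.Work.MP_8f87b2_h42.J3Ex

/-!
# The potential `Phi` of the classes `(V; a, 0)` (helper2)

`V` has at least two solitons, `N = 2 j + 1` its gaps, `D` the period (`rotGrp` = multiples of `D`), `l`, `l + 1` two letters with a
non sharp phase. `Phi z = sum_x ((x - l) mod D) f(x)`, `f` = the squares of `z`. It is an invariant of the T-cycle.
`NS_lift`: a non sharp phase of `V` gives non sharp phases for all squares. `hop`: for a hop of `(V; a, 0)` either there is a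
non sharp phase or `Phi` of the old word `S(())` is smaller than `Phi` of the two T-cycles of the hop.
-/

set_option autoImplicit false

namespace Pool.OddHC

open Finset Equiv BinaryTree Pool.Agent.Work.MP_8f87b2_co

namespace J2Phi

variable {i j k : ℕ}

/-! ### Doubly prime words -/

theorem lv_ne (n : ℕ) (A B : BinaryTree Unit) : lv n (A △ B) ≠ .nil := by
  cases n with
  | zero => simp [lv]
  | succ n => simp [lv]

theorem ins_ne {t : BinaryTree Unit} (h : t ≠ .nil) (e : List ℕ) : ins t e ≠ .nil := by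
  cases t with
  | nil => exact absurd rfl h
  | node _ A B => exact lv_ne _ _ _

theorem lv_prime {n : ℕ} {A B Y : BinaryTree Unit} (h : lv n (A △ B) = Y △ .nil) : n = 0 ∧ A = Y ∧ B = .nil := by
  cases n with
  | zero =>
    rw [lv] at h
    exact ⟨rfl, (H1.node_inj h).1, (H1.node_inj h).2⟩
  | succ n =>
    rw [lv] at h
    exact absurd (H1.node_inj h).2 (lv_ne _ _ _)

theorem ins_prime {t : BinaryTree Unit} {e : List ℕ} {Y : BinaryTree Unit} (ht : t ≠ .nil)
    (he : e.length = 2 * t.numNodes + 1) (h : ins t e = Y △ .nil) : ∃ A a, t = A △ .nil ∧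
    a.length = 2 * A.numNodes + 1 ∧ ins A (bump A a) = Y := by
  cases t with
  | nil => exact absurd rfl ht
  | node u A B =>
    obtain ⟨n, a, b, h1, h2, h3, h4, h5⟩ := split_e (A := A) (B := B) he
    change ins (A △ B) e = _ at h
    rw [ins, h4, h5] at h
    obtain ⟨-, h6, h7⟩ := lv_prime h
    have hB : B = .nil := by
      by_contra hB
      exact ins_ne hB b h7
    subst hB
    exact ⟨A, a, rfl, h2, h6⟩

/-- a doubly prime inflation comes from a doubly prime word -/
theorem ins_dp {t : BinaryTree Unit} {e : List ℕ} {Y : BinaryTree Unit} (ht : t ≠ .nil) (ht' : t ≠ .nil △ .nil)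
    (he : e.length = 2 * t.numNodes + 1) (h : ins t e = (Y △ .nil) △ .nil) : ∃ Z, t = (Z △ .nil) △ .nil := by
  obtain ⟨A, a, rfl, h1, h2⟩ := ins_prime ht he h
  have hA : A ≠ .nil := by
    rintro rfl
    exact ht' rfl
  have e1 : bump A a = a := by
    cases A with
    | nil => exact absurd rfl hA
    | node _ _ _ => rfl
  rw [e1] at h2
  obtain ⟨Z, b, rfl, -, -⟩ := ins_prime hA h1 h2
  exact ⟨Z, rfl⟩

/-- a non sharp phase of `V` gives a non sharp phase for all squares -/
theorem NS_lift {v : X i} (hv : 2 ≤ Multiset.card (OddHC.cont v.1)) (h : JV.NS v.1) (f : ZMod (2 * i + 1) → ℕ) :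
    JV.NS (inf (ins v.1 (lf f))) := by
  intro n y Y hy hT
  -- the phase before
  have hp : pkn ((TT : Equiv.Perm (X i)).symm v).1 = pkn v.1 := by
    have := pkn_TF ((TT : Equiv.Perm (X i)).symm v)
    rw [← TT_apply, Equiv.apply_symm_apply] at this
    exact this.symm
  obtain ⟨v', hv'⟩ : ∃ v', v' = (TT : Equiv.Perm (X i)).symm v := ⟨_, rfl⟩
  have hTv : TT v' = v := by rw [hv', Equiv.apply_symm_apply]
  rw [← hv'] at hp
  obtain ⟨m, hm⟩ : ∃ m, m = i + pkn v.1 + ∑ x, f x := ⟨_, rfl⟩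
  have hm' : i + pkn v'.1 + ∑ x, f (x - Vo v') = m := by
    have := sum_shift f (-Vo v')
    simp only [← sub_eq_add_neg] at this
    rw [hp, this, hm]
  obtain ⟨u', hu'⟩ : ∃ u' : X m, u' = phi v' (fun x => f (x - Vo v')) hm' := ⟨_, rfl⟩
  have hu1 : (TT u').1 = ins v.1 (lf f) := by
    rw [hu', TT_phi]
    change ins (TT v').1 (lf _) = _
    rw [hTv]
    congr 2
    funext x
    rw [add_sub_cancel_right]
  have hn : m + pkn u'.1 + ∑ _x : ZMod (2 * m + 1), 0 = n := by
    have h1 := (ins_num (TT u').1 (lf (fun _ : ZMod (2 * m + 1) => 0)) (by rw [lf_length, X_num])).1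
    have e0 : (ins (TT u').1 (lf (fun _ : ZMod (2 * m + 1) => 0))).numNodes = n := by
      rw [← J3Ex.inf_word, hu1, ← hT, X_num]
    have e1 : pkn (TT u').1 = pkn u'.1 := by rw [TT_apply, pkn_TF]
    rw [e0, X_num, lf_sum, e1] at h1
    exact h1.symm
  have hy' : y = phi u' (fun _ => 0) hn := by
    apply (TT : Equiv.Perm (X n)).injective
    apply Subtype.ext
    rw [hT, TT_phi]
    change _ = ins (TT u').1 (lf _)
    rw [← J3Ex.inf_word, hu1]
  have h1 : ins u'.1 (lf (fun _ : ZMod (2 * m + 1) => 0)) = (Y △ .nil) △ .nil := by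
    rw [← hy, hy']
    rfl
  have hc : 2 ≤ Multiset.card (OddHC.cont v'.1) := by
    rw [cont_card, hp, ← cont_card]
    exact hv
  have hv0 : v'.1 ≠ .nil := by
    intro h0
    rw [h0] at hc
    change 2 ≤ 0 at hc
    omega
  have hv1 : v'.1 ≠ .nil △ .nil := by
    intro h0
    rw [h0] at hc
    change 2 ≤ 1 at hc
    omega
  have hu0 : u'.1 ≠ .nil := by
    rw [hu']
    exact ins_ne hv0 _
  have hcu : 2 ≤ Multiset.card (OddHC.cont u'.1) := by
    have h2 : pkn u'.1 = pkn v'.1 + ∑ x, f (x - Vo v') := by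
      rw [hu']
      change pkn (ins v'.1 (lf _)) = _
      rw [(ins_num v'.1 (lf _) (by rw [lf_length, X_num])).2, lf_sum]
    rw [cont_card, h2, ← cont_card]
    omega
  have hu1' : u'.1 ≠ .nil △ .nil := by
    intro h0
    rw [h0] at hcu
    change 2 ≤ 1 at hcu
    omega
  obtain ⟨Z, hZ⟩ := ins_dp hu0 hu1' (by rw [lf_length, X_num]) h1
  have h2 : ins v'.1 (lf (fun x => f (x - Vo v'))) = (Z △ .nil) △ .nil := by
    rw [← hZ, hu']
    rfl
  obtain ⟨W, hW⟩ := ins_dp hv0 hv1 (by rw [lf_length, X_num]) h2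
  exact h i v' W hW (by rw [hTv])

/-! ### The weights -/

/-- the period of `u` -/
noncomputable def Dg (u : X i) : ℕ := (subgroup_zmod (rotGrp u)).choose

theorem Dg_dvd (u : X i) : Dg u ∣ 2 * i + 1 := (subgroup_zmod (rotGrp u)).choose_spec.choose

theorem Dg_mem (u : X i) {t : ZMod (2 * i + 1)} : t ∈ rotGrp u ↔ ZMod.castHom (Dg_dvd u) (ZMod (Dg u)) t = 0 :=
  (subgroup_zmod (rotGrp u)).choose_spec.choose_spec t

/-- a letter with a non sharp phase -/
def Nr (u : X i) (x : ZMod (2 * i + 1)) : Prop := ∃ n : ℕ, JV.NS ((TT ^ n) u).1 ∧ sp u n = x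

/-- the cut -/
noncomputable def lam (u : X i) : ZMod (2 * i + 1) := by
  classical
  exact if h : ∃ x, Nr u x ∧ Nr u (x + 1) then h.choose else 0

theorem lam_spec {u : X i} (h : ∃ x, Nr u x ∧ Nr u (x + 1)) : Nr u (lam u) ∧ Nr u (lam u + 1) := by
  unfold lam
  rw [dif_pos h]
  exact h.choose_spec

/-- the weight of a gap -/
noncomputable def wt (u : X i) (x : ZMod (2 * i + 1)) : ℕ := (ZMod.castHom (Dg_dvd u) (ZMod (Dg u)) (x - lam u)).val

theorem wt_rot {u : X i} {t : ZMod (2 * i + 1)} (h : t ∈ rotGrp u) (x : ZMod (2 * i + 1)) :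
    wt u (x + t) = wt u x := by
  unfold wt
  have e : x + t - lam u = (x - lam u) + t := by ring
  rw [e, map_add, (Dg_mem u).1 h, add_zero]

/-- the potential of a configuration -/
noncomputable def Wt (u : X i) (f : ZMod (2 * i + 1) → ℕ) : ℕ := ∑ x, wt u x * f x

theorem Wt_rot {u : X i} {t : ZMod (2 * i + 1)} (h : t ∈ rotGrp u) (f : ZMod (2 * i + 1) → ℕ) :
    Wt u (fun x => f (x + t)) = Wt u f := by
  unfold Wt
  rw [← sum_shift (fun x => wt u x * f x) t]
  refine Finset.sum_congr rfl fun x _ => ?_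
  rw [wt_rot h]

theorem Wt_add (u : X i) (f : ZMod (2 * i + 1) → ℕ) (y : ZMod (2 * i + 1)) :
    Wt u (fun x => f x + if x = y then 1 else 0) = Wt u f + wt u y := by
  unfold Wt
  simp only [mul_add, Finset.sum_add_distrib, mul_ite, mul_one, mul_zero]
  rw [Finset.sum_ite_eq' univ y (fun x => wt u x), if_pos (mem_univ _)]

/-! ### The potential of a T-cycle -/

/-- a phase of a T-cycle -/
noncomputable def rep (V : RD) : X V.1 := Quotient.out V.2

theorem rep_cyc (V : RD) : cyc (rep V) = V.2 := Quotient.out_eq _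

/-- the potential on the level of the beads -/
noncomputable def Phi1 (c : Cyc j) : ℕ := sInf {n | ∃ (f : ZMod (2 * (Rd c).1 + 1) → ℕ)
  (h : (Rd c).1 + pkn (rep (Rd c)).1 + ∑ x, f x = j), c = cyc (phi (rep (Rd c)) f h) ∧ n = Wt (rep (Rd c)) f}

theorem Phi1_aux {c : Cyc j} {V : RD} (hV : Rd c = V) {f : ZMod (2 * V.1 + 1) → ℕ}
    {h : V.1 + pkn (rep V).1 + ∑ x, f x = j} (hc : c = cyc (phi (rep V) f h)) : Phi1 c = Wt (rep V) f := by
  subst hV
  have e : {n | ∃ (f : ZMod (2 * (Rd c).1 + 1) → ℕ) (h : (Rd c).1 + pkn (rep (Rd c)).1 + ∑ x, f x = j),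
      c = cyc (phi (rep (Rd c)) f h) ∧ n = Wt (rep (Rd c)) f} = {Wt (rep (Rd c)) f} := by
    ext n
    constructor
    · rintro ⟨g, h', hg, rfl⟩
      have h1 := hc.symm.trans hg
      obtain ⟨m, h2, h3⟩ := (same_iff _ _ _ h h').1 (cyc_eq.1 h1)
      change _ = _
      rw [h3]
      exact Wt_rot (mem_rotGrp.2 ⟨m, h2, rfl⟩) f
    · rintro rfl
      exact ⟨f, h, hc, rfl⟩
  unfold Phi1
  rw [e, csInf_singleton]

/-- the potential of the class `(V; a, 0)` -/
noncomputable def Phi (z : Cyc k) : ℕ := Phi1 (Rd z).2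

theorem Phi_of {z : Cyc k} {c : Cyc j} (h : Rd z = ⟨j, c⟩) : Phi z = Phi1 c := by
  have : ∀ R R' : RD, R = R' → Phi1 R.2 = Phi1 R'.2 := fun _ _ h => by rw [h]
  exact this _ _ h

/-- **the potential of a word**: `v = T^n v0`, `v0` the chosen phase -/
theorem Phi1_word {v : X i} {n : ℕ} (hn : (TT ^ n) (rep ⟨i, cyc v⟩) = v) {g : ZMod (2 * i + 1) → ℕ} {x : X j}
    (hx : x.1 = ins v.1 (lf g)) :
    Phi1 (cyc x) = Wt (rep ⟨i, cyc v⟩) (fun z => g (z - sp (rep ⟨i, cyc v⟩) n)) := by
  have h1 : x.1 = ins ((TT ^ n) (rep ⟨i, cyc v⟩)).1 (lf g) := by rw [hn]; exact hx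
  obtain ⟨w', h2, h3⟩ := J3Ex.word_pow2 n h1
  have hk := word_phi h3
  rw [← h2]
  refine Phi1_aux (V := ⟨i, cyc v⟩) (h := hk) ?_ (by
    congr 1
    exact Subtype.ext h3)
  rw [Rd_ins (lf_length _) h3, rep_cyc]

/-! ### The cut -/

theorem wt_cut {u : X i} {s : ZMod (2 * i + 1)} (h0 : ZMod.castHom (Dg_dvd u) (ZMod (Dg u)) (s - lam u) ≠ 0)
    (h1 : ZMod.castHom (Dg_dvd u) (ZMod (Dg u)) (s - (lam u + 1)) ≠ 0) :
    wt u (s - 2) < wt u (s - 1) ∧ wt u (s - 2) < wt u s := by
  have hD : Dg u ≠ 0 := by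
    intro h
    have := Dg_dvd u
    rw [h, zero_dvd_iff] at this
    omega
  have : NeZero (Dg u) := ⟨hD⟩
  obtain ⟨q, hq⟩ : ∃ q, q = ZMod.castHom (Dg_dvd u) (ZMod (Dg u)) (s - lam u) := ⟨_, rfl⟩
  have e1 : ZMod.castHom (Dg_dvd u) (ZMod (Dg u)) (s - (lam u + 1)) = q - 1 := by
    have : s - (lam u + 1) = (s - lam u) - 1 := by ring
    rw [this, map_sub, map_one, hq]
  have e2 : ZMod.castHom (Dg_dvd u) (ZMod (Dg u)) (s - 1 - lam u) = q - 1 := by
    have : s - 1 - lam u = (s - lam u) - 1 := by ring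
    rw [this, map_sub, map_one, hq]
  have e3 : ZMod.castHom (Dg_dvd u) (ZMod (Dg u)) (s - 2 - lam u) = q - 1 - 1 := by
    have : s - 2 - lam u = (s - lam u) - 1 - 1 := by ring
    rw [this, map_sub, map_sub, map_one, hq]
  rw [e1] at h1
  rw [← hq] at h0
  have hm : ((q.val : ℕ) : ZMod (Dg u)) = q := ZMod.natCast_zmod_val q
  have hlt := ZMod.val_lt q
  have m0 : q.val ≠ 0 := by
    intro h
    exact h0 ((ZMod.val_eq_zero q).1 h)
  have m1 : q.val ≠ 1 := by
    intro h
    apply h1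
    rw [← hm, h, Nat.cast_one, sub_self]
  obtain ⟨m, hm2⟩ : ∃ m, q.val = m + 2 := ⟨q.val - 2, by omega⟩
  have g1 : (q - 1).val = m + 1 := by
    have : q - 1 = ((m + 1 : ℕ) : ZMod (Dg u)) := by
      rw [← hm, hm2]
      push_cast
      ring
    rw [this, ZMod.val_natCast_of_lt (by omega)]
  have g2 : (q - 1 - 1).val = m := by
    have : q - 1 - 1 = ((m : ℕ) : ZMod (Dg u)) := by
      rw [← hm, hm2]
      push_cast
      ring
    rw [this, ZMod.val_natCast_of_lt (by omega)]
  unfold wt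
  rw [e2, e3, ← hq, g1, g2, hm2]
  omega

theorem Nr_rot {u : X i} {x t : ZMod (2 * i + 1)} (h : Nr u x) (ht : t ∈ rotGrp u) : Nr u (x + t) := by
  obtain ⟨n, h1, h2⟩ := h
  obtain ⟨m, h3, h4⟩ := mem_rotGrp.1 ht
  refine ⟨m + n, ?_, ?_⟩
  · rw [add_comm, pow_add, Equiv.Perm.mul_apply, h3]
    exact h1
  · rw [sp_add, h3, h4, h2]
    exact add_comm t x

/-! ### `sq` of a word over a word -/

theorem sq_lv (n : ℕ) {t : BinaryTree Unit} (h : 2 ≤ Tsq.ht t) : (Tsq.sq (lv n t)).2 = (Tsq.sq t).2 := by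
  have hh : ∀ n, 2 ≤ Tsq.ht (lv n t) := by
    intro n
    induction n with
    | zero => exact h
    | succ n ih =>
      change 2 ≤ Tsq.ht (.nil △ lv n t)
      rw [Tsq.ht_node]
      omega
  induction n with
  | zero => rfl
  | succ n ih =>
    change (Tsq.sq (.nil △ lv n t)).2 = _
    have h1 : Tsq.ht (BinaryTree.nil : BinaryTree Unit) + 1 < Tsq.ht (lv n t) := by
      have := hh n
      change 0 + 1 < _
      omega
    have hne : lv n t ≠ .nil := by
      intro h0
      have := hh n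
      rw [h0] at this
      change 2 ≤ 0 at this
      omega
    obtain ⟨X, Y, e, -⟩ := Sq2.first _ hne
    rw [Tsq.sq_lt h1 e]
    exact ih

theorem ht_ins0 {t : BinaryTree Unit} {e : List ℕ} (he : e.length = 2 * t.numNodes + 1) (hn : t ≠ .nil) :
    Tsq.ht (ins t e) = Tsq.ht t + 1 := by
  rw [Sq2.htT, Sq2.htT]
  exact OddHC.ht_ins t e he hn

/-- `B` of a word over `t` is not empty if `B` of `t` is not empty -/
theorem sq_ins : ∀ (t : BinaryTree Unit) (e : List ℕ), e.length = 2 * t.numNodes + 1 →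
    (Tsq.sq t).2 ≠ .nil → (Tsq.sq (ins t e)).2 ≠ .nil := by
  intro t
  induction t with
  | nil => intro e _ h; exact absurd rfl h
  | node u A C ihA ihC =>
    intro e he h
    obtain ⟨n, a, b, h1, h2, h3, h4, h5⟩ := split_e (A := A) (B := C) he
    change (Tsq.sq (ins (A △ C) e)).2 ≠ .nil
    change (Tsq.sq (A △ C)).2 ≠ .nil at h
    rw [ins, h4, h5]
    have hA' : Tsq.ht (ins A (bump A a)) = Tsq.ht A + 1 := by
      cases A with
      | nil =>
        change Tsq.ht (lv (a.headD 0 + 1) .nil) = 0 + 1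
        generalize a.headD 0 = m
        induction m with
        | zero => rfl
        | succ m ih =>
          change Tsq.ht (.nil △ lv (m + 1) .nil) = _
          rw [Tsq.ht_node, ih]
          rfl
      | node u' A1 A2 => exact ht_ins0 h2 (by simp)
    have hX : 2 ≤ Tsq.ht (ins A (bump A a) △ ins C b) := by
      rw [Tsq.ht_node, hA']
      omega
    rw [sq_lv _ hX]
    by_cases hlt : Tsq.ht A + 1 < Tsq.ht C
    · have hC : C ≠ .nil := by
        rintro rfl
        change _ < 0 at hlt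
        omega
      obtain ⟨X, Y, e1, -⟩ := Sq2.first _ hC
      rw [Tsq.sq_lt hlt e1] at h
      have h6 := ihC b h3 h
      have hlt' : Tsq.ht (ins A (bump A a)) + 1 < Tsq.ht (ins C b) := by
        rw [hA', ht_ins0 h3 hC]
        omega
      obtain ⟨X', Y', e1', -⟩ := Sq2.first _ (ins_ne hC b)
      rw [Tsq.sq_lt hlt' e1']
      exact h6
    · have hge : ¬ Tsq.ht (ins A (bump A a)) + 1 < Tsq.ht (ins C b) := by
        by_cases hC : C = .nil
        · subst hC
          have : Tsq.ht (ins (.nil : BinaryTree Unit) b) ≤ 1 := by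
            change Tsq.ht (lv (b.headD 0) .nil) ≤ 1
            generalize b.headD 0 = m
            induction m with
            | zero => change 0 ≤ 1; omega
            | succ m ih =>
              change Tsq.ht (.nil △ lv m .nil) ≤ 1
              rw [Tsq.ht_node]
              change max (0 + 1) _ ≤ 1
              omega
          omega
        · rw [hA', ht_ins0 h3 hC]
          omega
      have hsnd : ∀ A C : BinaryTree Unit, ¬ Tsq.ht A + 1 < Tsq.ht C → (Tsq.sq (A △ C)).2 = C := by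
        intro A C hn
        rw [Tsq.sq_node, if_neg hn]
      rw [hsnd _ _ hge]
      rw [hsnd _ _ hlt] at h
      exact ins_ne h b

/-! ### The hop -/

/-- a word without a part 1 is an inflation -/
theorem of_one {R : BinaryTree Unit} (h : (OddHC.cont R).count 1 = 0) : ∃ (j : ℕ) (u : X j), R = inf u.1 := by
  obtain ⟨w, hw⟩ : ∃ w : X R.numNodes, w.1 = R := ⟨⟨R, mem_treesOfNumNodesEq.2 rfl⟩, rfl⟩
  obtain ⟨j, u, e, he, h1, -, -⟩ := red_ex w
  have he' : e.length = 2 * u.1.numNodes + 1 := by rw [X_num]; exact he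
  have hs : e.sum = 0 := by
    rw [← count_one_ins u.1 e he', ← h1, hw]
    exact h
  have he0 : e = List.replicate (2 * u.1.numNodes + 1) 0 := by
    rw [List.eq_replicate_iff]
    refine ⟨he', fun x hx => ?_⟩
    have := List.single_le_sum (by simp) x hx
    omega
  exact ⟨j, u, by rw [← hw, h1, he0]; rfl⟩

/-- **the hop lemma**: at a hop without a non sharp phase (`B = nil`) the potential of the old word 13 = `S(())` is smaller than
the potentials of the two T-cycles of the hop -/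
theorem hop {R S : BinaryTree Unit} (h : J3.SqD k R .nil S)
    (hV : (OddHC.cont R).count 2 + 2 ≤ Multiset.card (OddHC.cont R)) (w : X k)
    (hall : ∀ (S' : BinaryTree Unit) (x y : X k), x.1 = app S' ((.nil △ .nil) △ .nil) → y.1 = (.nil △ .nil) △ S' →
      cyc x = cyc (J3.sX R .nil S w 0) → cyc y = cyc (J3.sX R .nil S w 4) → ¬ JV.NS S') :
    Phi (cyc (J3.sX R .nil S w 13)) < Phi (cyc (J3.sX R .nil S w 0)) ∧
      Phi (cyc (J3.sX R .nil S w 13)) < Phi (cyc (J3.sX R .nil S w 4)) := by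
  obtain ⟨j, u, hR⟩ := of_one h.one
  obtain ⟨i, v, e, he, hu, -, hpu⟩ := red_ex u
  obtain ⟨f, rfl⟩ := exists_lf he
  rw [lf_sum] at hpu
  -- two solitons
  have hcv : 2 ≤ Multiset.card (OddHC.cont v.1) := by
    have e1 : (OddHC.cont R).count 2 = ∑ x, f x := by
      rw [hR, cont_inf, Multiset.count_map_eq_count' _ _ (add_left_injective 1) 1, hu,
        count_one_ins v.1 (lf f) (by rw [lf_length, X_num]), lf_sum]
    have e2 : Multiset.card (OddHC.cont R) = pkn u.1 := by rw [hR, cont_inf, Multiset.card_map, cont_card]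
    rw [e1, e2, hpu] at hV
    rw [cont_card]
    omega
  have hv0 : v.1 ≠ .nil := by
    intro h0
    rw [h0] at hcv
    change 2 ≤ 0 at hcv
    omega
  have hu0 : u.1 ≠ .nil := by
    rw [hu]
    exact ins_ne hv0 _
  -- `B`
  have hsq := Sq2.sq_inf u.1
  rw [← hR, h.sq] at hsq
  obtain ⟨hS, hB⟩ := Prod.mk.inj hsq
  have hBu : (Tsq.sq u.1).2 = .nil := by
    by_contra hc
    exact inf_ne_nil hc hB.symm
  have hBv : (Tsq.sq v.1).2 = .nil := by
    by_contra hc
    refine sq_ins v.1 (lf f) (by rw [lf_length, X_num]) hc ?_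
    rw [← hu]
    exact hBu
  have hsp : sp v 2 = -1 := by
    rw [Sq2.sp_two v hv0, hBv]
    simp
  have hSu : ((TT ^ 2) u).1 = (Tsq.sq u.1).1 := by
    have := Tsq.TT_sq u hu0
    rw [hBu] at this
    rw [pow_two, Equiv.Perm.mul_apply, this]
    rfl
  -- the words on the level of the beads
  have mk : ∀ d : ZMod (2 * i + 1), ∃ x : X (j + 1), x.1 = ins v.1 (lf (fun z => f z + if z = d then 1 else 0)) := by
    intro d
    refine ⟨⟨_, mem_treesOfNumNodesEq.2 ?_⟩, rfl⟩
    have h1 := (ins_num v.1 (lf (fun z => f z + if z = d then 1 else 0)) (by rw [lf_length, X_num])).1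
    have h2 := (ins_num v.1 (lf f) (by rw [lf_length, X_num])).1
    rw [← hu, X_num, X_num, lf_sum] at h2
    rw [lf_sum, X_num, Finset.sum_add_distrib, Finset.sum_ite_eq' univ d (fun _ => 1), if_pos (mem_univ _)] at h1
    omega
  obtain ⟨x0, hx0⟩ := mk (-1)
  obtain ⟨x4, hx4⟩ := mk 0
  obtain ⟨x13, hx13⟩ := mk (-2)
  have r0 : Rd (cyc (J3.sX R .nil S w 0)) = ⟨j + 1, cyc x0⟩ := by
    refine Rd_ins (lf_length _) (Eq.trans ?_ (J3Ex.inf_word x0))
    rw [h.word w (by norm_num), hx0, ins_back, ← hu, inf_app_leaf, ← hR]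
    rfl
  have r4 : Rd (cyc (J3.sX R .nil S w 4)) = ⟨j + 1, cyc x4⟩ := by
    refine Rd_ins (lf_length _) (Eq.trans ?_ (J3Ex.inf_word x4))
    rw [h.word w (by norm_num), hx4, ins_front, ← hu, inf_node, ← hR]
    rfl
  have r13 : Rd (cyc (J3.sX R .nil S w 13)) = ⟨j + 1, cyc x13⟩ := by
    have e1 : ((TT ^ 2) x13).1 = app (Tsq.sq u.1).1 (.nil △ .nil) := by
      rw [word_pow hx13, ← hSu, word_pow hu, ← ins_back]
      congr 2
      funext z
      rw [hsp]
      have g3 : (z + -1 = -2) ↔ z = -1 := by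
        constructor
        · intro g
          linear_combination g
        · rintro rfl
          ring
      simp only [g3]
    have e2 : cyc ((TT ^ 2) x13) = cyc x13 := (cyc_eq.2 ⟨2, rfl⟩).symm
    rw [← e2]
    refine Rd_ins (lf_length _) (Eq.trans ?_ (J3Ex.inf_word ((TT ^ 2) x13)))
    rw [h.word w (by norm_num), e1, inf_app_leaf, ← hS]
    rfl
  -- the phase `v` and the chosen phase
  obtain ⟨v0, hv0'⟩ : ∃ v0 : X i, v0 = rep ⟨i, cyc v⟩ := ⟨_, rfl⟩
  obtain ⟨n, hn⟩ : ∃ n : ℕ, (TT ^ n) v0 = v := by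
    apply sameCycle_nat
    rw [← cyc_eq, hv0']
    exact rep_cyc ⟨i, cyc v⟩
  have hn' := hn
  rw [hv0'] at hn'
  obtain ⟨s, hs⟩ : ∃ s, s = sp v0 n := ⟨_, rfl⟩
  have key : ∀ (d : ZMod (2 * i + 1)) (x : X (j + 1)), x.1 = ins v.1 (lf (fun z => f z + if z = d then 1 else 0)) →
      Phi1 (cyc x) = Wt v0 (fun z => f (z - s)) + wt v0 (s + d) := by
    intro d x hx
    rw [Phi1_word hn' hx, ← hv0', ← hs, ← Wt_add]
    congr 1
    funext z
    have g : z - s = d ↔ z = s + d := by
      constructor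
      · intro g
        linear_combination g
      · rintro rfl
        ring
    simp only [g]
  rw [Phi_of r0, Phi_of r4, Phi_of r13, key _ x0 hx0, key _ x4 hx4, key _ x13 hx13, add_zero, ← sub_eq_add_neg,
    ← sub_eq_add_neg]
  -- a non sharp phase with the star at `s` gives a non sharp phase of the hop
  have hNr : ¬ Nr v0 s := by
    rintro ⟨m, h1, h2⟩
    have hc' : 2 ≤ Multiset.card (OddHC.cont ((TT ^ m) v0).1) := by
      have e1 : cyc ((TT ^ m) v0) = cyc v := by
        rw [← hn]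
        have a1 : cyc v0 = cyc ((TT ^ m) v0) := cyc_eq.2 ⟨(m : ℤ), by rw [zpow_natCast]⟩
        have a2 : cyc v0 = cyc ((TT ^ n) v0) := cyc_eq.2 ⟨(n : ℤ), by rw [zpow_natCast]⟩
        exact a1.symm.trans a2
      rw [cont_same (cyc_eq.1 e1)]
      exact hcv
    have hNS := NS_lift hc' h1 f
    obtain ⟨S', hS'⟩ : ∃ S', S' = inf (ins ((TT ^ m) v0).1 (lf f)) := ⟨_, rfl⟩
    -- the two words over the phase `m`
    have two : ∀ (d : ZMod (2 * i + 1)) (x : X (j + 1)) (y : X k), x.1 = ins v.1 (lf (fun z => f z + if z = d then 1 else 0)) →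
        Rd (cyc y) = ⟨j + 1, cyc x⟩ → (OddHC.contc (cyc y)).count 1 = 0 →
        ∃ y' : X k, y'.1 = inf (ins ((TT ^ m) v0).1 (lf (fun z => f z + if z = d then 1 else 0))) ∧ cyc y' = cyc y := by
      intro d x y hx hy hy1
      -- the bead level
      have h3 : x.1 = ins ((TT ^ n) v0).1 (lf (fun z => f z + if z = d then 1 else 0)) := by rw [hn]; exact hx
      obtain ⟨x', h4, h5⟩ := J3Ex.word_pow2 n h3
      have h6 := word_pow h5 m
      have h7 : ((TT ^ m) x').1 = ins ((TT ^ m) v0).1 (lf (fun z => f z + if z = d then 1 else 0)) := by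
        rw [h6]
        congr 2
        funext z
        rw [h2, ← hs, add_sub_cancel_right]
      have h8 : cyc ((TT ^ m) x') = cyc x := by
        rw [← h4]
        exact (cyc_eq.2 ⟨(m : ℤ), by rw [zpow_natCast]⟩).symm
      have hk : (inf ((TT ^ m) x').1).numNodes = k := by
        have g1 := Rd_size (cyc y)
        rw [hy, hy1, add_zero, ← h8, pkc_cyc] at g1
        have g2 := (ins_num ((TT ^ m) x').1 (List.replicate (2 * ((TT ^ m) x').1.numNodes + 1) 0) List.length_replicate).1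
        rw [List.sum_replicate, smul_zero, add_zero, X_num] at g2
        rw [← g1, ← g2, inf, X_num]
      refine ⟨⟨_, mem_treesOfNumNodesEq.2 hk⟩, by rw [← h7], ?_⟩
      apply Rd_unique
      · rw [hy, ← h8]
        exact Rd_ins (lf_length _) (J3Ex.inf_word _)
      · change (OddHC.cont (inf _)).count 1 = 0
        rw [cont_inf]
        apply Multiset.count_eq_zero_of_notMem
        intro g
        obtain ⟨z, hz, hz1⟩ := Multiset.mem_map.1 g
        have := cont_pos _ z hz
        omega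
    have hc0 : (OddHC.contc (cyc (J3.sX R .nil S w 0))).count 1 = 0 := by
      change (OddHC.cont (J3.sX R .nil S w 0).1).count 1 = 0
      rw [h.word w (by norm_num)]
      change (OddHC.cont (app R _)).count 1 = 0
      rw [cont_app, Multiset.count_add, h.one]
      decide
    have hc4 : (OddHC.contc (cyc (J3.sX R .nil S w 4))).count 1 = 0 := by
      change (OddHC.cont (J3.sX R .nil S w 4).1).count 1 = 0
      rw [h.word w (by norm_num)]
      change (OddHC.cont ((.nil △ .nil) △ R)).count 1 = 0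
      rw [cont_node, Multiset.count_add, h.one]
      decide
    obtain ⟨y0, g0, g1⟩ := two _ _ _ hx0 r0 hc0
    obtain ⟨y4, g2, g3⟩ := two _ _ _ hx4 r4 hc4
    refine hall S' y0 y4 ?_ ?_ g1 g3 (by rw [hS']; exact hNS)
    · rw [g0, ins_back, inf_app_leaf, hS']
    · rw [g2, ins_front, inf_node, hS']
      rfl
  have hfact := NSx.fact v0 (by
    have e1 : cyc v0 = cyc v := by
      rw [← hn]
      exact cyc_eq.2 ⟨(n : ℤ), by rw [zpow_natCast]⟩
    rw [cont_same (cyc_eq.1 e1)]
    exact hcv) ⟨n, fun h1 => hNr ⟨n, h1, hs.symm⟩⟩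
  obtain ⟨m, f1, f2, f3⟩ := hfact
  have hl := lam_spec (u := v0) ⟨sp v0 (m + 2), ⟨m + 2, f2, rfl⟩, ⟨m, f1, by rw [f3]; ring⟩⟩
  have hcut := wt_cut (u := v0) (s := s) (by
    intro h0
    apply hNr
    have := Nr_rot hl.1 ((Dg_mem v0).2 h0)
    rwa [add_sub_cancel] at this) (by
    intro h0
    apply hNr
    have := Nr_rot hl.2 ((Dg_mem v0).2 h0)
    rwa [add_sub_cancel] at this)
  omega

/-- **the case distinction**: a non sharp phase of the hop, or the potential falls -/
theorem hop_or {R S : BinaryTree Unit} (h : J3.SqD k R .nil S)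
    (hV : (OddHC.cont R).count 2 + 2 ≤ Multiset.card (OddHC.cont R)) (w : X k) :
    (∃ (S' : BinaryTree Unit) (x y : X k), x.1 = app S' ((.nil △ .nil) △ .nil) ∧ y.1 = (.nil △ .nil) △ S' ∧
      cyc x = cyc (J3.sX R .nil S w 0) ∧ cyc y = cyc (J3.sX R .nil S w 4) ∧ JV.NS S') ∨
    Phi (cyc (J3.sX R .nil S w 13)) < Phi (cyc (J3.sX R .nil S w 0)) ∧
      Phi (cyc (J3.sX R .nil S w 13)) < Phi (cyc (J3.sX R .nil S w 4)) := by
  by_cases hc : ∃ (S' : BinaryTree Unit) (x y : X k), x.1 = app S' ((.nil △ .nil) △ .nil) ∧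
      y.1 = (.nil △ .nil) △ S' ∧ cyc x = cyc (J3.sX R .nil S w 0) ∧ cyc y = cyc (J3.sX R .nil S w 4) ∧ JV.NS S'
  · exact Or.inl hc
  · refine Or.inr (hop h hV w fun S' x y h1 h2 h3 h4 h5 => hc ⟨S', x, y, h1, h2, h3, h4, h5⟩)

/-- the key of a group: the smallest potential of its T-cycles -/
noncomputable def mu (F : Set (Cyc k)) : ℕ := sInf (Phi '' F)

theorem mu_le {F : Set (Cyc k)} {c : Cyc k} (h : c ∈ F) : mu F ≤ Phi c := Nat.sInf_le ⟨c, h, rfl⟩

theorem lt_mu {F : Set (Cyc k)} {z z' : Cyc k} {n : ℕ} (hF : F = {z, z'}) (h : n < Phi z) (h' : n < Phi z') : n < mu F := by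
  have hne : (Phi '' F).Nonempty := ⟨Phi z, z, by rw [hF]; exact Or.inl rfl, rfl⟩
  obtain ⟨c, hc, e⟩ := Nat.sInf_mem hne
  unfold mu
  rw [← e]
  rw [hF] at hc
  rcases hc with rfl | rfl
  · exact h
  · exact h'

end J2Phi

end Pool.OddHC
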