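import Pool.Agent.Work.MP_8f87b2_h41.FewF

/-!
# A rotation invariant closed walk through all vertices of the odd graph (helper2)

`WW A B l U`: a walk of length `l` from `A` to `B` in `O_k` which meets the orbits of the words in `U`.
-/

set_option autoImplicit false

namespace Pool.OddHC

open Finset BinaryTree Equiv Pool.Agent.Work.MP_8f87b2_co

namespace Wk

variable {k : ℕ}

/-- a walk of length `l` from `A` to `B` which meets the orbits of `U` -/
def WW (A B : V k) (l : ℕ) (U : Set (X k)) : Prop :=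
  ∃ p : (oddGraph k).Walk A B, p.length = l ∧ ∀ u ∈ U, ∃ t, vtx u t ∈ p.support

theorem WW.nil (w : X k) (s : ZMod (2 * k + 1)) : WW (vtx w s) (vtx w s) 0 {w} :=
  ⟨.nil, rfl, by
    intro u hu
    rw [Set.mem_singleton_iff] at hu
    subst hu
    exact ⟨s, by simp⟩⟩

theorem WW.refl (A : V k) : WW A A 0 ∅ := ⟨.nil, rfl, fun u hu => absurd hu (Set.notMem_empty u)⟩

theorem WW.edge {A B : V k} (h : (oddGraph k).Adj A B) : WW A B 1 ∅ :=
  ⟨.cons h .nil, rfl, fun u hu => absurd hu (Set.notMem_empty u)⟩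

theorem WW.mono {A B : V k} {l : ℕ} {U U' : Set (X k)} (h : WW A B l U) (hU : U' ⊆ U) : WW A B l U' := by
  obtain ⟨p, h1, h2⟩ := h
  exact ⟨p, h1, fun u hu => h2 u (hU hu)⟩

theorem WW.trans {A B C : V k} {l l' : ℕ} {U U' : Set (X k)} (h : WW A B l U) (h' : WW B C l' U') :
    WW A C (l + l') (U ∪ U') := by
  obtain ⟨p, h1, h2⟩ := h
  obtain ⟨q, h3, h4⟩ := h'
  refine ⟨p.append q, by rw [SimpleGraph.Walk.length_append, h1, h3], ?_⟩
  rintro u (hu | hu)
  · obtain ⟨t, ht⟩ := h2 u hu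
    exact ⟨t, SimpleGraph.Walk.mem_support_append_iff p q |>.2 (Or.inl ht)⟩
  · obtain ⟨t, ht⟩ := h4 u hu
    exact ⟨t, SimpleGraph.Walk.mem_support_append_iff p q |>.2 (Or.inr ht)⟩

theorem WW.rot {A B : V k} {l : ℕ} {U : Set (X k)} (h : WW A B l U) (d : ZMod (2 * k + 1)) :
    WW (shift k d A) (shift k d B) l U := by
  obtain ⟨p, h1, h2⟩ := h
  refine ⟨p.map (shift k d).toHom, by rw [SimpleGraph.Walk.length_map, h1], ?_⟩
  intro u hu
  obtain ⟨t, ht⟩ := h2 u hu
  refine ⟨t + d, ?_⟩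
  rw [← shift_vtx, SimpleGraph.Walk.support_map, List.mem_map]
  exact ⟨_, ht, rfl⟩

/-- cut a walk at a vertex -/
theorem WW.split {A C : V k} {l : ℕ} {U : Set (X k)} (h : WW A C l U) {u : X k} (hu : u ∈ U) :
    ∃ (t : ZMod (2 * k + 1)) (l1 l2 : ℕ) (U1 U2 : Set (X k)), WW A (vtx u t) l1 U1 ∧ WW (vtx u t) C l2 U2 ∧
      l1 + l2 = l ∧ U ⊆ U1 ∪ U2 := by
  classical
  obtain ⟨p, h1, h2⟩ := h
  obtain ⟨t, ht⟩ := h2 u hu
  have hs := p.take_spec ht
  refine ⟨t, _, _, {v | ∃ s, vtx v s ∈ (p.takeUntil _ ht).support}, {v | ∃ s, vtx v s ∈ (p.dropUntil _ ht).support},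
    ⟨p.takeUntil _ ht, rfl, fun v hv => hv⟩, ⟨p.dropUntil _ ht, rfl, fun v hv => hv⟩, ?_, ?_⟩
  · rw [← SimpleGraph.Walk.length_append, hs, h1]
  · intro v hv
    obtain ⟨s, hs'⟩ := h2 v hv
    rw [← hs, SimpleGraph.Walk.mem_support_append_iff] at hs'
    rcases hs' with h3 | h3
    · exact Or.inl ⟨s, h3⟩
    · exact Or.inr ⟨s, h3⟩

/-! ### Short walks between any two vertices -/

theorem sdiff_card {A B : V k} : (A.1 \ B.1).card = (B.1 \ A.1).card := by
  have h1 := card_sdiff_add_card_inter A.1 B.1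
  have h2 := card_sdiff_add_card_inter B.1 A.1
  rw [inter_comm] at h2
  have h3 := A.2
  have h4 := B.2
  omega

theorem short (hk : 1 ≤ k) : ∀ (d : ℕ) (A B : V k), (A.1 \ B.1).card = d → WW A B (2 * d) ∅ := by
  intro d
  induction d with
  | zero =>
    intro A B h
    have h1 : A = B := by
      apply Subtype.ext
      apply Finset.eq_of_subset_of_card_le
      · exact sdiff_eq_empty_iff_subset.1 (card_eq_zero.1 h)
      · rw [A.2, B.2]
    subst h1
    exact WW.refl A
  | succ d ih =>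
    intro A B h
    obtain ⟨a, ha⟩ : (A.1 \ B.1).Nonempty := card_pos.1 (by omega)
    obtain ⟨b, hb⟩ : (B.1 \ A.1).Nonempty := card_pos.1 (by rw [← sdiff_card]; omega)
    rw [mem_sdiff] at ha hb
    have hc1 : (insert b (A.1.erase a)).card = k := by
      rw [card_insert_of_notMem (fun h => hb.2 (mem_of_mem_erase h)), card_erase_of_mem ha.1, A.2]
      omega
    have hc2 : (univ \ insert b A.1).card = k := by
      rw [card_sdiff_of_subset (subset_univ _), card_univ, ZMod.card, card_insert_of_notMem hb.2, A.2]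
      omega
    let A' : V k := ⟨_, hc1⟩
    let C : V k := ⟨_, hc2⟩
    have d1 : Disjoint A.1 C.1 := by
      rw [disjoint_left]
      intro x hx hx'
      have := (mem_sdiff.1 hx').2
      exact this (mem_insert_of_mem hx)
    have d2 : Disjoint C.1 A'.1 := by
      rw [disjoint_left]
      intro x hx hx'
      have h3 := (mem_sdiff.1 hx).2
      rcases mem_insert.1 hx' with rfl | h4
      · exact h3 (mem_insert_self _ _)
      · exact h3 (mem_insert_of_mem (mem_of_mem_erase h4))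
    have ne : ∀ P Q : V k, Disjoint P.1 Q.1 → P ≠ Q := by
      rintro P Q h3 rfl
      have h4 := disjoint_self_iff_empty _ |>.1 h3
      have h5 := P.2
      rw [h4, card_empty] at h5
      omega
    have e1 : (oddGraph k).Adj A C := ⟨ne _ _ d1, d1⟩
    have e2 : (oddGraph k).Adj C A' := ⟨ne _ _ d2, d2⟩
    have h6 : (A'.1 \ B.1).card = d := by
      have h7 : A'.1 \ B.1 = (A.1 \ B.1).erase a := by
        ext x
        simp only [A', mem_sdiff, mem_insert, mem_erase]
        constructor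
        · rintro ⟨rfl | ⟨h8, h9⟩, h10⟩
          · exact absurd hb.1 h10
          · exact ⟨h8, h9, h10⟩
        · rintro ⟨h8, h9, h10⟩
          exact ⟨Or.inr ⟨h8, h9⟩, h10⟩
      rw [h7, card_erase_of_mem (mem_sdiff.2 ha), h]
      omega
    have h7 := ((WW.edge e1).trans (WW.edge e2)).trans (ih A' B h6)
    have e3 : 1 + 1 + 2 * d = 2 * (d + 1) := by ring
    rw [e3] at h7
    exact h7.mono (Set.empty_subset _)

theorem short' (hk : 1 ≤ k) (A B : V k) : ∃ l ≤ 2 * k, WW A B l ∅ := by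
  refine ⟨2 * (A.1 \ B.1).card, ?_, short hk _ A B rfl⟩
  have := card_le_card (sdiff_subset (s := A.1) (t := B.1))
  rw [A.2] at this
  omega

/-! ### A cycle of the permutation -/

theorem cycle_walk {σ : Perm (X k)} {F : X k → ZMod (2 * k + 1)}
    (hadj : ∀ w s, (oddGraph k).Adj (vtx w s) (vtx (σ w) (s + F w))) (w : X k) (s : ZMod (2 * k + 1)) :
    ∀ m : ℕ, ∃ s', WW (vtx w s) (vtx ((σ ^ m) w) s') m {v | ∃ i ≤ m, (σ ^ i) w = v} := by
  intro m
  induction m with
  | zero =>
    refine ⟨s, (WW.nil w s).mono ?_⟩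
    rintro v ⟨i, hi, rfl⟩
    obtain rfl : i = 0 := by omega
    rfl
  | succ m ih =>
    obtain ⟨s', h⟩ := ih
    have h1 := hadj ((σ ^ m) w) s'
    have e : σ ((σ ^ m) w) = (σ ^ (m + 1)) w := by rw [pow_succ', Perm.mul_apply]
    rw [e] at h1
    refine ⟨_, ((h.trans (WW.edge h1)).trans (WW.nil _ _)).mono ?_⟩
    rintro v ⟨i, hi, rfl⟩
    rcases Nat.lt_or_ge i (m + 1) with h2 | h2
    · exact Or.inl (Or.inl ⟨i, by omega, rfl⟩)
    · obtain rfl : i = m + 1 := by omega
      exact Or.inr rfl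

theorem cycle_full {σ : Perm (X k)} {F : X k → ZMod (2 * k + 1)}
    (hadj : ∀ w s, (oddGraph k).Adj (vtx w s) (vtx (σ w) (s + F w))) (w : X k) (s : ZMod (2 * k + 1)) :
    ∃ s', ∃ m : ℕ, WW (vtx w s) (vtx w s') m {v | σ.SameCycle w v} ∧
      ∀ C : Finset (X k), (∀ v, σ.SameCycle w v → v ∈ C) → m ≤ C.card := by
  classical
  have hex : ∃ m, 0 < m ∧ (σ ^ m) w = w := ⟨orderOf σ, orderOf_pos σ, by rw [pow_orderOf_eq_one]; rfl⟩
  obtain ⟨m, hm⟩ : ∃ m, m = Nat.find hex := ⟨_, rfl⟩
  have h1 := Nat.find_spec hex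
  have h2 : ∀ i, 0 < i → i < m → (σ ^ i) w ≠ w := fun i hi hi' h3 => Nat.find_min hex (hm ▸ hi') ⟨hi, h3⟩
  rw [← hm] at h1
  obtain ⟨s', h3⟩ := cycle_walk hadj w s m
  rw [h1.2] at h3
  refine ⟨s', m, h3.mono ?_, ?_⟩
  · intro v hv
    obtain ⟨n, hn⟩ := sameCycle_nat hv
    refine ⟨n % m, (Nat.mod_lt _ h1.1).le, ?_⟩
    have h4 : ∀ q : ℕ, (σ ^ (m * q)) w = w := by
      intro q
      induction q with
      | zero => rfl
      | succ q ih => rw [Nat.mul_succ, pow_add, Perm.mul_apply, h1.2, ih]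
    have h5 : (σ ^ n) w = (σ ^ (n % m)) w := by
      nth_rewrite 1 [← Nat.mod_add_div n m]
      rw [pow_add, Perm.mul_apply, h4]
    rw [← h5, hn]
  · intro C hC
    have h4 : (range m).card ≤ C.card := by
      apply card_le_card_of_injOn (fun i => (σ ^ i) w)
      · intro i _
        exact hC _ ⟨(i : ℤ), by rw [zpow_natCast]⟩
      · intro i hi i' hi' e
        rw [mem_coe, mem_range] at hi hi'
        have key : ∀ i i' : ℕ, i < m → i' < m → i < i' → (σ ^ i) w = (σ ^ i') w → False := by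
          intro i i' _ hi' hlt e
          have h5 : (σ ^ i') w = (σ ^ i) ((σ ^ (i' - i)) w) := by
            rw [← Perm.mul_apply, ← pow_add]
            congr 2
            omega
          rw [h5] at e
          exact h2 (i' - i) (by omega) (by omega) ((σ ^ i).injective e).symm
        rcases Nat.lt_trichotomy i i' with h5 | h5 | h5
        · exact (key i i' hi hi' h5 e).elim
        · exact h5
        · exact (key i' i hi' hi h5 e.symm).elim
    rwa [card_range] at h4

/-! ### The walk through all orbits -/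

theorem build (hk : 1 ≤ k) {σ : Perm (X k)} {F : X k → ZMod (2 * k + 1)}
    (hadj : ∀ w s, (oddGraph k).Adj (vtx w s) (vtx (σ w) (s + F w))) (S : Finset (X k))
    (hS : ∀ w, ∃ r ∈ S, σ.SameCycle r w) (w0 : X k) :
    ∃ (l : ℕ) (s : ZMod (2 * k + 1)), WW (vtx w0 0) (vtx w0 s) l Set.univ ∧
      l + 2 ≤ Fintype.card (X k) + 2 * S.card := by
  classical
  have main : ∀ (n : ℕ) (U : Finset (X k)) (l : ℕ) (s : ZMod (2 * k + 1)), (S.filter (· ∉ U)).card = n →
      w0 ∈ U → (∀ w ∈ U, ∀ v, σ.SameCycle w v → v ∈ U) → WW (vtx w0 0) (vtx w0 s) l (U : Set (X k)) →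
      l + 2 * n + 2 ≤ U.card + 2 * S.card → ∃ (l : ℕ) (s : ZMod (2 * k + 1)), WW (vtx w0 0) (vtx w0 s) l Set.univ ∧
      l + 2 ≤ Fintype.card (X k) + 2 * S.card := by
    intro n
    induction n using Nat.strong_induction_on with
    | _ n ih =>
      intro U l s hn h0 hU hW hl
      by_cases hall : ∀ v, v ∈ U
      · have : U = univ := eq_univ_iff_forall.2 hall
        refine ⟨l, s, hW.mono fun v _ => hall v, ?_⟩
        rw [← card_univ, ← this]
        omega
      · -- an edge which leaves `U`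
        push Not at hall
        obtain ⟨v, hv⟩ := hall
        have hex : ∃ (u u' : X k) (t t' : ZMod (2 * k + 1)), u ∈ U ∧ u' ∉ U ∧ (oddGraph k).Adj (vtx u t) (vtx u' t') := by
          by_contra hcon
          push Not at hcon
          have hwalk : ∀ (A B : V k) (p : (oddGraph k).Walk A B), (∃ u ∈ U, ∃ t, A = vtx u t) →
              ∃ u ∈ U, ∃ t, B = vtx u t := by
            intro A B p
            induction p with
            | nil => exact id
            | @cons A M B h p ihp =>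
              rintro ⟨u, hu, t, rfl⟩
              apply ihp
              obtain ⟨u', t', rfl⟩ := vtx_surj M
              refine ⟨u', ?_, t', rfl⟩
              by_contra h3
              exact hcon u u' t t' hu h3 h
          obtain ⟨l', -, p, -, -⟩ := short' hk (vtx w0 0) (vtx v 0)
          obtain ⟨u, hu, t, e⟩ := hwalk _ _ p ⟨w0, h0, 0, rfl⟩
          exact hv ((vtx_inj e).1 ▸ hu)
        obtain ⟨u, u', t, t', hu, hu', he⟩ := hex
        obtain ⟨t0, l1, l2, U1, U2, w1, w2, hl12, hU12⟩ := hW.split (u := u) hu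
        -- the edge at `t0`
        have he1 : (oddGraph k).Adj (vtx u t0) (vtx u' (t' + (t0 - t))) := by
          have h3 := (shift k (t0 - t)).map_adj_iff.2 he
          rw [shift_vtx, shift_vtx] at h3
          have e1 : t + (t0 - t) = t0 := by ring
          rwa [e1] at h3
        obtain ⟨s', m, h4, h5⟩ := cycle_full hadj u' (t' + (t0 - t))
        -- the way back
        obtain ⟨δ, hδ⟩ : ∃ δ, δ = s' - (t' + (t0 - t)) := ⟨_, rfl⟩
        have he2 : (oddGraph k).Adj (vtx u' s') (vtx u (t0 + δ)) := by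
          have h3 := (shift k δ).map_adj_iff.2 he1.symm
          rw [shift_vtx, shift_vtx] at h3
          have e1 : t' + (t0 - t) + δ = s' := by rw [hδ]; ring
          rwa [e1] at h3
        have w2' := w2.rot δ
        rw [shift_vtx, shift_vtx] at w2'
        have hnew := (((w1.trans (WW.edge he1)).trans h4).trans (WW.edge he2)).trans w2'
        -- the new set
        obtain ⟨C, hC⟩ : ∃ C : Finset (X k), C = univ.filter fun v => σ.SameCycle u' v := ⟨_, rfl⟩
        have hCm : ∀ v, v ∈ C ↔ σ.SameCycle u' v := by intro v; rw [hC, mem_filter]; simp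
        have hm := h5 C fun v hv => (hCm v).2 hv
        have hdis : Disjoint U C := by
          rw [disjoint_left]
          intro x hx hx'
          exact hu' (hU x hx u' ((hCm x).1 hx').symm)
        obtain ⟨r, hr, hr'⟩ := hS u'
        have hrU : r ∉ U := fun h => hu' (hU r h u' hr')
        have hrC : r ∈ C := (hCm r).2 hr'.symm
        have hlt : (S.filter (· ∉ U ∪ C)).card < (S.filter (· ∉ U)).card := by
          apply card_lt_card
          rw [ssubset_iff_of_subset]
          · exact ⟨r, mem_filter.2 ⟨hr, hrU⟩, fun h => (mem_filter.1 h).2 (mem_union_right _ hrC)⟩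
          · intro x hx
            rw [mem_filter] at hx ⊢
            exact ⟨hx.1, fun h => hx.2 (mem_union_left _ h)⟩
        refine ih _ (by rw [← hn]; exact hlt) (U ∪ C) _ (s + δ) rfl (mem_union_left _ h0) ?_ (hnew.mono ?_) ?_
        · intro w hw v hwv
          rcases mem_union.1 hw with h6 | h6
          · exact mem_union_left _ (hU w h6 v hwv)
          · exact mem_union_right _ ((hCm v).2 (((hCm w).1 h6).trans hwv))
        · intro x hx
          rw [mem_coe, mem_union] at hx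
          rcases hx with h6 | h6
          · rcases hU12 h6 with h7 | h7
            · exact Or.inl (Or.inl (Or.inl (Or.inl h7)))
            · exact Or.inr h7
          · exact Or.inl (Or.inl (Or.inr ((hCm x).1 h6)))
        · rw [card_union_of_disjoint hdis]
          omega
  -- the start
  obtain ⟨s, m, h1, h2⟩ := cycle_full hadj w0 0
  obtain ⟨C, hC⟩ : ∃ C : Finset (X k), C = univ.filter fun v => σ.SameCycle w0 v := ⟨_, rfl⟩
  have hCm : ∀ v, v ∈ C ↔ σ.SameCycle w0 v := by intro v; rw [hC, mem_filter]; simp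
  have hm := h2 C fun v hv => (hCm v).2 hv
  obtain ⟨r, hr, hr'⟩ := hS w0
  have hrC : r ∈ C := (hCm r).2 hr'.symm
  have hlt : (S.filter (· ∉ C)).card < S.card := by
    apply card_lt_card
    rw [ssubset_iff_of_subset (filter_subset _ _)]
    exact ⟨r, hr, fun h => (mem_filter.1 h).2 hrC⟩
  refine main _ C m s rfl ((hCm w0).2 (Perm.SameCycle.refl _ _)) ?_ (h1.mono ?_) ?_
  · intro w hw v hwv
    exact (hCm v).2 (((hCm w).1 hw).trans hwv)
  · intro x hx
    exact (hCm x).1 hx
  · omega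

/-! ### The closed walk -/

theorem card_Xk (k : ℕ) : Fintype.card (X k) = catalan k := by
  rw [Fintype.card_coe, treesOfNumNodesEq_card_eq_catalan]

theorem card_Vk (k : ℕ) : Nat.card (V k) = (2 * k + 1) * catalan k := by
  have e : X k × ZMod (2 * k + 1) ≃ V k := Equiv.ofBijective (fun p => vtx p.1 p.2) (by
    constructor
    · rintro ⟨w, s⟩ ⟨w', s'⟩ h
      obtain ⟨rfl, rfl⟩ := vtx_inj h
      rfl
    · intro A
      obtain ⟨w, s, h⟩ := vtx_surj A
      exact ⟨(w, s), h⟩)
  rw [← Nat.card_congr e, Nat.card_eq_fintype_card, Fintype.card_prod, card_Xk, ZMod.card, Nat.mul_comm]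

/-- a walk from `A` to its shift by one which meets every orbit -/
theorem near_path (hk : 1 ≤ k) : ∃ (A : V k) (ℓ : ℕ), WW A (shift k 1 A) ℓ Set.univ ∧
    ℓ ≤ catalan k + 2 * (Nat.fib (k - 1) * Nat.fib k) + 2 * k := by
  obtain ⟨G, hE, hd, hc⟩ := exists_E_card k
  obtain ⟨π, z, S, hleg, -, -, hS, hcard⟩ := few_perm G hE hd
  have hb : S.card ≤ 1 + Nat.fib (k - 1) * Nat.fib k := hcard.trans (hc.trans (Cnt2.sum_NB hk))
  have hadj : ∀ w s, (oddGraph k).Adj (vtx w s) (vtx ((TT * π : Perm (X k)) w) (s + (z w + Vo (π w)))) := by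
    intro w s
    have h1 : Disjoint (io w s) (io ((TT * π : Perm (X k)) w) (s + (z w + Vo (π w)))) := by
      have h3 := (hleg.1 w).disj s
      have h4 : (TT * π : Perm (X k)) w = TT (π w) := rfl
      have h5 : s + (z w + Vo (π w)) = s + z w + Vo (π w) := by ring
      rw [h4, h5]
      exact h3
    refine ⟨fun h => ?_, h1⟩
    have h2 : io w s = io ((TT * π : Perm (X k)) w) (s + (z w + Vo (π w))) := congrArg Subtype.val h
    rw [← h2, disjoint_self_iff_empty] at h1
    have h3 := io_card w s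
    rw [h1, card_empty] at h3
    omega
  obtain ⟨w0⟩ : Nonempty (X k) := by
    rw [← Fintype.card_pos_iff, card_Xk]
    have h1 := card_Vk k
    have h2 : 0 < Nat.card (V k) := by
      rw [Nat.card_eq_fintype_card, card_V]
      exact Nat.choose_pos (by omega)
    rw [h1] at h2
    exact Nat.pos_of_mul_pos_left h2
  obtain ⟨l, s, h1, h2⟩ := build hk hadj S hS w0
  obtain ⟨l', hl', h3⟩ := short' hk (vtx w0 s) (vtx w0 1)
  refine ⟨vtx w0 0, l + l', ?_, ?_⟩
  · rw [shift_vtx, zero_add]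
    exact (h1.trans h3).mono fun u _ => Or.inl trivial
  · rw [card_Xk] at h2
    omega

/-- the closed walk which belongs to a walk from `A` to its shift by one -/
theorem closed (hk : 1 ≤ k) {A : V k} {ℓ : ℕ} (h : WW A (shift k 1 A) ℓ Set.univ) :
    1 ≤ ℓ ∧ ∃ c : ZMod ((2 * k + 1) * ℓ) → V k, Function.Surjective c ∧ (∀ i, (oddGraph k).Adj (c i) (c (i + 1))) ∧
      ∀ i, shift k 1 (c i) = c (i + (ℓ : ZMod ((2 * k + 1) * ℓ))) := by
  obtain ⟨p, hp, hU⟩ := h
  have hl : 1 ≤ ℓ := by
    rw [Nat.one_le_iff_ne_zero]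
    rintro rfl
    have h1 := p.getVert_zero
    have h2 := p.getVert_length
    rw [hp, h1] at h2
    obtain ⟨w, s, rfl⟩ := vtx_surj A
    rw [shift_vtx] at h2
    have h3 := (vtx_inj h2).2
    have h4 : (1 : ZMod (2 * k + 1)) = 0 := by linear_combination -h3
    have : Fact (1 < 2 * k + 1) := ⟨by omega⟩
    exact one_ne_zero h4
  refine ⟨hl, ?_⟩
  obtain ⟨W, hW⟩ : ∃ W : ℕ → V k, W = fun i => shift k ((i / ℓ : ℕ) : ZMod (2 * k + 1)) (p.getVert (i % ℓ)) :=
    ⟨_, rfl⟩
  have hWl : ∀ i, W (i + ℓ) = shift k 1 (W i) := by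
    intro i
    rw [hW]
    simp only
    rw [Nat.add_div_right _ hl, Nat.add_mod_right, shift_add]
    congr 1
    push_cast
    ring
  have hWd : ∀ (d i : ℕ), W (i + d * ℓ) = shift k (d : ZMod (2 * k + 1)) (W i) := by
    intro d
    induction d with
    | zero => intro i; simp [shift_zero]
    | succ d ih =>
      intro i
      have e : i + (d + 1) * ℓ = i + d * ℓ + ℓ := by ring
      rw [e, hWl, ih, shift_add]
      congr 1
      push_cast
      ring
  have hW0 : ∀ j ≤ ℓ, W j = p.getVert j := by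
    intro j hj
    rcases Nat.lt_or_ge j ℓ with h1 | h1
    · rw [hW]
      simp only
      rw [Nat.div_eq_of_lt h1, Nat.mod_eq_of_lt h1, Nat.cast_zero, shift_zero]
    · obtain rfl : j = ℓ := by omega
      have h2 : W j = shift k 1 (W 0) := by rw [← hWl, zero_add]
      rw [h2]
      have h3 := p.getVert_length
      rw [hp] at h3
      rw [h3, hW]
      simp only
      rw [Nat.zero_div, Nat.zero_mod, p.getVert_zero, Nat.cast_zero, shift_zero]
  have hWadj : ∀ i, (oddGraph k).Adj (W i) (W (i + 1)) := by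
    intro i
    have h1 : W i = shift k ((i / ℓ : ℕ) : ZMod (2 * k + 1)) (W (i % ℓ)) := by
      rw [← hWd, Nat.mul_comm (i / ℓ), Nat.mod_add_div]
    have h2 : W (i + 1) = shift k ((i / ℓ : ℕ) : ZMod (2 * k + 1)) (W (i % ℓ + 1)) := by
      rw [← hWd]
      congr 1
      have := Nat.mod_add_div i ℓ
      rw [Nat.mul_comm] at this
      omega
    have h3 := Nat.mod_lt i hl
    rw [h1, h2, shift_adj, hW0 _ h3.le, hW0 _ h3]
    exact p.adj_getVert_succ (by rw [hp]; exact h3)
  have hNe : NeZero ((2 * k + 1) * ℓ) := ⟨Nat.mul_ne_zero (by omega) (by omega)⟩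
  have hper : ∀ n : ℕ, W (n % ((2 * k + 1) * ℓ)) = W n := by
    intro n
    have h1 := Nat.mod_add_div n ((2 * k + 1) * ℓ)
    have h2 : W n = W (n % ((2 * k + 1) * ℓ) + ((2 * k + 1) * (n / ((2 * k + 1) * ℓ))) * ℓ) := by
      congr 1
      have e : (2 * k + 1) * (n / ((2 * k + 1) * ℓ)) * ℓ = (2 * k + 1) * ℓ * (n / ((2 * k + 1) * ℓ)) := by
        generalize n / ((2 * k + 1) * ℓ) = q
        ring
      rw [e, h1]
    rw [h2, hWd]
    have h3 : (((2 * k + 1) * (n / ((2 * k + 1) * ℓ)) : ℕ) : ZMod (2 * k + 1)) = 0 := by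
      rw [Nat.cast_mul, ZMod.natCast_self, zero_mul]
    rw [h3, shift_zero]
  obtain ⟨c, hc⟩ : ∃ c : ZMod ((2 * k + 1) * ℓ) → V k, c = fun x => W x.val := ⟨_, rfl⟩
  have hcn : ∀ n : ℕ, c (n : ZMod ((2 * k + 1) * ℓ)) = W n := by
    intro n
    rw [hc]
    simp only
    rw [ZMod.val_natCast, hper]
  refine ⟨c, ?_, ?_, ?_⟩
  · intro B
    obtain ⟨u, s, rfl⟩ := vtx_surj B
    obtain ⟨t, ht⟩ := hU u trivial
    rw [SimpleGraph.Walk.mem_support_iff_exists_getVert] at ht
    obtain ⟨j, hj, hj'⟩ := ht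
    rw [hp] at hj'
    refine ⟨((j + (s - t).val * ℓ : ℕ) : ZMod ((2 * k + 1) * ℓ)), ?_⟩
    rw [hcn, hWd, hW0 j hj', hj, ZMod.natCast_zmod_val, shift_vtx]
    congr 1
    ring
  · intro i
    rw [← ZMod.natCast_zmod_val i, ← Nat.cast_one (R := ZMod ((2 * k + 1) * ℓ)), ← Nat.cast_add, hcn, hcn]
    exact hWadj _
  · intro i
    rw [← ZMod.natCast_zmod_val i, ← Nat.cast_add, hcn, hcn]
    exact (hWl _).symm

theorem uniq_card {α β : Type*} [Fintype α] [Fintype β] (f : α → β) (hf : Function.Surjective f) :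
    2 * Fintype.card β ≤ Nat.card {b : β // ∃! a, f a = b} + Fintype.card α := by
  classical
  have h1 : Fintype.card α = ∑ b : β, (univ.filter fun a => f a = b).card := by
    rw [← card_univ, Finset.card_eq_sum_card_fiberwise (f := f) (t := univ) (fun _ _ => mem_coe.2 (mem_univ _))]
  have h2 : Nat.card {b : β // ∃! a, f a = b} = ∑ b : β, if ∃! a, f a = b then 1 else 0 := by
    rw [Nat.card_eq_fintype_card, Fintype.card_subtype, Finset.card_filter]
  rw [h1, h2, ← Finset.sum_add_distrib]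
  have h3 : 2 * Fintype.card β = ∑ _b : β, 2 := by rw [Finset.sum_const, card_univ, smul_eq_mul, Nat.mul_comm]
  rw [h3]
  apply Finset.sum_le_sum
  intro b _
  obtain ⟨a, ha⟩ := hf b
  split_ifs with h4
  · have : 0 < (univ.filter fun a => f a = b).card := card_pos.2 ⟨a, mem_filter.2 ⟨mem_univ _, ha⟩⟩
    omega
  · have : 1 < (univ.filter fun a => f a = b).card := by
      by_contra h5
      apply h4
      refine ⟨a, ha, fun a' ha' => ?_⟩
      have h6 : (univ.filter fun a => f a = b).card ≤ 1 := by omega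
      exact Finset.card_le_one.1 h6 a' (mem_filter.2 ⟨mem_univ _, ha'⟩) a (mem_filter.2 ⟨mem_univ _, ha⟩)
    omega

/-- **P3, second part**: a closed walk of `O_k` through all vertices, of length `(2 k + 1) ℓ` with
`ℓ ≤ catalan k + 2 F_(k-1) F_k + 2 k`, on which the shift by one acts as the translation by `ℓ`; all but
`(2 k + 1) (2 F_(k-1) F_k + 2 k)` vertices are visited exactly once. -/
theorem near_walk (hk : 1 ≤ k) :
    ∃ ℓ : ℕ, catalan k ≤ ℓ ∧ ℓ ≤ catalan k + 2 * (Nat.fib (k - 1) * Nat.fib k) + 2 * k ∧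
      ∃ c : ZMod ((2 * k + 1) * ℓ) → V k, Function.Surjective c ∧
        (∀ i, (oddGraph k).Adj (c i) (c (i + 1))) ∧
        (∀ i, shift k 1 (c i) = c (i + (ℓ : ZMod ((2 * k + 1) * ℓ)))) ∧
        Nat.card (V k) ≤ Nat.card {A : V k // ∃! i, c i = A} +
          (2 * k + 1) * (2 * (Nat.fib (k - 1) * Nat.fib k) + 2 * k) := by
  obtain ⟨A, ℓ, h1, h2⟩ := near_path hk
  obtain ⟨h3, c, h4, h5, h6⟩ := closed hk h1
  have hNe : NeZero ((2 * k + 1) * ℓ) := ⟨Nat.mul_ne_zero (by omega) (by omega)⟩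
  have h7 := card_Vk k
  have h8 : Fintype.card (ZMod ((2 * k + 1) * ℓ)) = (2 * k + 1) * ℓ := ZMod.card _
  have h9 := Fintype.card_le_of_surjective c h4
  have h10 := uniq_card c h4
  rw [h8, ← Nat.card_eq_fintype_card (α := V k)] at h9 h10
  refine ⟨ℓ, ?_, h2, c, h4, h5, h6, ?_⟩
  · rw [h7] at h9
    exact Nat.le_of_mul_le_mul_left h9 (by omega)
  · have h11 : (2 * k + 1) * ℓ ≤ (2 * k + 1) * (catalan k + 2 * (Nat.fib (k - 1) * Nat.fib k) + 2 * k) :=
      Nat.mul_le_mul_left _ h2
    have h12 : (2 * k + 1) * (catalan k + 2 * (Nat.fib (k - 1) * Nat.fib k) + 2 * k) =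
        (2 * k + 1) * catalan k + (2 * k + 1) * (2 * (Nat.fib (k - 1) * Nat.fib k) + 2 * k) := by ring
    rw [h12, ← h7] at h11
    omega

end Wk

end Pool.OddHC

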